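import Mathlib
import Pool.Agent.Run7.h854.CO.Chain

set_option autoImplicit false

/-!
# Products of functions of distant digits, for almost every amplitude
-/

namespace Run7.h854.CG

open Finset Filter Topology MeasureTheory
open Pool.Agent.N176.GP (NB NB_spec NB_div)
open Run7.h854.PO Run7.h854.PQ Run7.h854.LB Run7.h854.CO

theorem chain_abs {b : ℕ} (hb : 2 ≤ b) {m a1 a2 : ℕ} (h12 : a1 ≤ a2)
    (z L : ℕ → ℕ → ℕ) (Z : ℕ → ℕ → ℕ → ℝ)
    (hzm : ∀ s, Monotone (z s)) (hm : m ≤ z 0 0)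
    (hzL : ∀ s j, z s j ≤ L s j) (hLs : ∀ s j, L s j ≤ z (s + 1) j)
    (hLj : ∀ s j, L s j ≤ z s (j + 1))
    (hZ0 : ∀ s j n, 0 ≤ Z s j n)
    {Cm : ℝ} (hCm0 : 0 ≤ Cm)
    (hsec : ∀ s j i, a1 * b ^ (z s j - m) ≤ i → i < a2 * b ^ (z s j - m) →
      GG b (z s j) (L s j) (fun n => Z s j n ^ 2) i ≤ Cm)
    (μ : ℕ → ℝ)
    (hdev : ∀ k, ∀ᵐ β : ℝ, (a1 : ℝ) / (b : ℝ) ^ m < β → β ≤ (a2 : ℝ) / (b : ℝ) ^ m →
      Tendsto (fun j => GG b (z k j) (L k j) (Z k j) (NB b β (z k j))) atTop (𝓝 (μ k))) :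
    ∀ k : ℕ, ∀ᵐ β : ℝ, (a1 : ℝ) / (b : ℝ) ^ m < β → β ≤ (a2 : ℝ) / (b : ℝ) ^ m →
      Ces (fun j => ∏ s ∈ range k, Z s j (NB b β (L s j))) (∏ s ∈ range k, μ s) := by
  classical
  have hb0 : (0 : ℝ) < b := by positivity
  have hzs : ∀ s j, z s j ≤ z (s + 1) j := fun s j => (hzL s j).trans (hLs s j)
  have hmz : ∀ s j, m ≤ z s j := by
    intro s j
    induction s with
    | zero => exact hm.trans (hzm 0 (Nat.zero_le j))
    | succ s ih => exact ih.trans (hzs s j)
  have hzss : ∀ j s s', s ≤ s' → z s j ≤ z s' j := fun j s s' h =>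
    monotone_nat_of_le_succ (fun s => hzs s j) h
  have hLlt : ∀ j s s', s < s' → L s j ≤ z s' j := fun j s s' h =>
    (hLs s j).trans (hzss j (s + 1) s' h)
  obtain ⟨Zt, hZt⟩ : ∃ Zt : ℕ → ℕ → ℕ → ℕ → ℝ, ∀ s j t n, Zt s j t n = Z s j (n / b ^ (t - L s j)) :=
    ⟨fun s j t n => Z s j (n / b ^ (t - L s j)), fun _ _ _ _ => rfl⟩
  have hZt0 : ∀ s j t n, 0 ≤ Zt s j t n := fun s j t n => by rw [hZt]; exact hZ0 s j _
  have hZtlev : ∀ s j u t n, L s j ≤ u → u ≤ t → Zt s j t n = Zt s j u (n / b ^ (t - u)) := by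
    intro s j u t n h1 h2
    rw [hZt, hZt, PO.div_div h1 h2]
  set μ0 := ((a2 : ℝ) - a1) / (b : ℝ) ^ m with hμ0
  have hμ00 : 0 ≤ μ0 := by
    have : (a1 : ℝ) ≤ a2 := by exact_mod_cast h12
    rw [hμ0]
    exact div_nonneg (by linarith) (by positivity)
  -- the second moments
  have hSM : ∀ k j t : ℕ, (∀ s < k, L s j ≤ t) → m ≤ t →
      Av b m a1 a2 t (fun n => (∏ s ∈ range k, Zt s j t n) ^ 2) ≤ Cm ^ k * μ0 := by
    intro k
    induction k with
    | zero =>
      intro j t _ hmt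
      have e1 : (fun n => (∏ s ∈ range 0, Zt s j t n) ^ 2) = fun _ => (1 : ℝ) := by
        funext n
        simp
      rw [e1, Av_one hb hmt h12, pow_zero, one_mul]
    | succ k ih =>
      intro j t ht hmt
      set s0 := z k j with hs0
      have hLt : L k j ≤ t := ht k (Nat.lt_succ_self k)
      have hs0t : s0 ≤ t := (hzL k j).trans hLt
      have e1 : (fun n => (∏ s ∈ range (k + 1), Zt s j t n) ^ 2) = fun n =>
          (fun i => (∏ s ∈ range k, Zt s j s0 i) ^ 2) (n / b ^ (t - s0)) * Zt k j t n ^ 2 := by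
        funext n
        simp only
        rw [Finset.prod_range_succ, mul_pow]
        congr 2
        refine Finset.prod_congr rfl fun s hs => ?_
        exact hZtlev s j s0 t n (hLlt j s k (mem_range.1 hs)) hs0t
      rw [e1, ← Av_GG hb (hmz k j) hs0t h12]
      have e2 : GG b s0 t (fun n => (fun i => (∏ s ∈ range k, Zt s j s0 i) ^ 2)
          (n / b ^ (t - s0)) * Zt k j t n ^ 2) = fun i =>
          (∏ s ∈ range k, Zt s j s0 i) ^ 2 * GG b s0 t (fun n => Zt k j t n ^ 2) i := by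
        funext i
        exact GG_mul (fun i => (∏ s ∈ range k, Zt s j s0 i) ^ 2)
          (fun n => Zt k j t n ^ 2) i
      rw [e2]
      have h3 : Av b m a1 a2 s0 (fun i => (∏ s ∈ range k, Zt s j s0 i) ^ 2 *
          GG b s0 t (fun n => Zt k j t n ^ 2) i) ≤
          Av b m a1 a2 s0 (fun i => Cm * (∏ s ∈ range k, Zt s j s0 i) ^ 2) := by
        refine Av_mono' fun i hi => ?_
        rw [mem_Ico] at hi
        have h6 : GG b s0 t (fun n => Zt k j t n ^ 2) i ≤ Cm := by
          have e3 : (fun n => Zt k j t n ^ 2) =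
              fun n => (fun n' => Z k j n' ^ 2) (n / b ^ (t - L k j)) := by
            funext n
            rw [hZt]
          have e4 := GG_level hb (show s0 ≤ L k j from hzL k j) hLt (fun n' => Z k j n' ^ 2) i
          rw [e3]
          exact e4.trans_le (hsec k j i hi.1 hi.2)
        rw [mul_comm Cm]
        exact mul_le_mul_of_nonneg_left h6 (sq_nonneg _)
      refine h3.trans ?_
      rw [Av_mul]
      have h8 := mul_le_mul_of_nonneg_left (ih j s0 (fun s hs => hLlt j s k hs)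
        (hmz k j)) hCm0
      exact h8.trans (le_of_eq (by ring))
  -- the induction
  intro k
  induction k with
  | zero =>
    refine Eventually.of_forall fun β _ _ => ?_
    simp only [Finset.prod_range_zero]
    exact ces_of_tendsto tendsto_const_nhds
  | succ k ih =>
    set Zz : ℕ → ℕ := z k with hZz
    set F : ℕ → ℕ → ℝ := fun j n => ∏ s ∈ range (k + 1), Zt s j (Zz (j + 1)) n with hF
    set M2 := Cm ^ (k + 1) * μ0 with hM2
    have hM20 : 0 ≤ M2 := by positivity
    have hL1 : ∀ j, ∀ s < k + 1, L s j ≤ Zz (j + 1) := by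
      intro j s hs
      rcases Nat.lt_or_ge s k with h | h
      · exact (hLlt j s k h).trans (hzm k (Nat.le_succ j))
      · have e : s = k := by omega
        rw [e]
        exact hLj k j
    have hF2 : ∀ j, Av b m a1 a2 (Zz (j + 1)) (fun n => F j n ^ 2) ≤ M2 := by
      intro j
      exact hSM (k + 1) j (Zz (j + 1)) (hL1 j) (hmz k (j + 1))
    set J4 : ℕ → ℕ := fun i => (i + 1) ^ 4 with hJ4
    have hJ4r : ∀ i, ((J4 i : ℕ) : ℝ) = ((i : ℝ) + 1) ^ 4 := fun i => by rw [hJ4]; push_cast; rfl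
    have hbad1 : ∀ ε : ℝ, 0 < ε → ∀ᵐ β : ℝ, (a1 : ℝ) / (b : ℝ) ^ m < β →
        β ≤ (a2 : ℝ) / (b : ℝ) ^ m → ∀ᶠ i in atTop,
          ¬ (ε * J4 i < |SS b Zz F (J4 i) (NB b β (Zz (J4 i)))|) := by
      intro ε hε
      refine bc (C := M2 / ε ^ 2) hb (t := fun i => Zz (J4 i)) (fun i => hmz k _)
        (fun i n => ε * J4 i < |SS b Zz F (J4 i) n|) fun i => ?_
      have hJpos : (0 : ℝ) < J4 i := by rw [hJ4r]; positivity
      refine (cheb (fun n => SS b Zz F (J4 i) n) (show 0 < ε * J4 i by positivity)).trans ?_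
      have h3 := SS_sq' (b := b) (z := Zz) (F := F) (a1 := a1) (a2 := a2) hb (hzm k) (hmz k 0) h12
        hF2 (J4 i)
      calc _ ≤ (J4 i : ℝ) * M2 / (ε * J4 i) ^ 2 := div_le_div_of_nonneg_right h3 (by positivity)
        _ = M2 / ε ^ 2 / (J4 i : ℝ) := by field_simp
        _ ≤ M2 / ε ^ 2 / ((i : ℝ) + 1) ^ 2 := by
            rw [hJ4r]
            refine div_le_div_of_nonneg_left (by positivity) (by positivity) ?_
            exact pow_le_pow_right₀ (by linarith [(Nat.cast_nonneg i : (0 : ℝ) ≤ i)]) (by norm_num)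
    have hall1 : ∀ᵐ β : ℝ, ∀ i' : ℕ, (a1 : ℝ) / (b : ℝ) ^ m < β →
        β ≤ (a2 : ℝ) / (b : ℝ) ^ m → ∀ᶠ i in atTop,
          ¬ (1 / ((i' : ℝ) + 1) * J4 i < |SS b Zz F (J4 i) (NB b β (Zz (J4 i)))|) :=
      ae_all_iff.2 fun i' => hbad1 _ (by positivity)
    filter_upwards [ih, hdev k, hall1] with β hβ1 hβ2 hβ3 hβl hβr
    have hβ : 0 < β := lt_of_le_of_lt (by positivity) hβl
    set Pj : ℕ → ℝ := fun j => ∏ s ∈ range k, Z s j (NB b β (L s j)) with hPj
    set Gj : ℕ → ℝ := fun j => GG b (Zz j) (L k j) (Z k j) (NB b β (Zz j)) with hGj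
    have hPj0 : ∀ j, 0 ≤ Pj j := fun j => Finset.prod_nonneg fun s _ => hZ0 _ _ _
    have hprod : Ces (fun j => Pj j * Gj j) ((∏ s ∈ range k, μ s) * μ k) :=
      ces_mul hPj0 (hβ1 hβl hβr) (hβ2 hβl hβr)
    have hFβ : ∀ j, F j (NB b β (Zz (j + 1))) =
        ∏ s ∈ range (k + 1), Z s j (NB b β (L s j)) := by
      intro j
      rw [hF]
      refine Finset.prod_congr rfl fun s hs => ?_
      rw [hZt, NB_div hb hβ (hL1 j s (mem_range.1 hs))]
    have hGF : ∀ j, GG b (Zz j) (Zz (j + 1)) (F j) (NB b β (Zz j)) = Pj j * Gj j := by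
      intro j
      have e1 : F j = fun n => (fun i => ∏ s ∈ range k, Zt s j (Zz j) i) (n / b ^ (Zz (j + 1) - Zz j)) *
          (fun n' => Z k j (n' / b ^ (Zz (j + 1) - L k j))) n := by
        funext n
        rw [hF]
        simp only
        rw [Finset.prod_range_succ, hZt k]
        congr 1
        refine Finset.prod_congr rfl fun s hs => ?_
        exact hZtlev s j (Zz j) (Zz (j + 1)) n (hLlt j s k (mem_range.1 hs)) (hzm k (Nat.le_succ j))
      have e2 := GG_mul (b := b) (s := Zz j) (t := Zz (j + 1))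
        (fun i => ∏ s ∈ range k, Zt s j (Zz j) i)
        (fun n' => Z k j (n' / b ^ (Zz (j + 1) - L k j))) (NB b β (Zz j))
      rw [e1]
      refine e2.trans ?_
      have e4 := GG_level hb (show Zz j ≤ L k j from hzL k j)
        (show L k j ≤ Zz (j + 1) from hLj k j) (Z k j) (NB b β (Zz j))
      rw [e4]
      rw [hPj, hGj]
      simp only
      congr 1
      refine Finset.prod_congr rfl fun s hs => ?_
      rw [hZt, NB_div hb hβ (hLlt j s k (mem_range.1 hs))]
    have hS : ∀ J, SS b Zz F J (NB b β (Zz J)) = ∑ j ∈ range J, (F j (NB b β (Zz (j + 1))) -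
        Pj j * Gj j) := by
      intro J
      unfold SS DD
      refine Finset.sum_congr rfl fun j hj => ?_
      rw [mem_range] at hj
      rw [NB_div hb hβ (hzm k (by omega : j + 1 ≤ J)), NB_div hb hβ (hzm k (Nat.le_succ j)), ← hGF j]
    have hJ4t : Tendsto J4 atTop atTop := by
      refine tendsto_atTop_mono (fun i => ?_) tendsto_id
      simp only [id, hJ4]
      calc i ≤ i + 1 := Nat.le_succ i
        _ = (i + 1) ^ 1 := (pow_one _).symm
        _ ≤ (i + 1) ^ 4 := Nat.pow_le_pow_right (by omega) (by norm_num)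
    have hSS0 : Tendsto (fun i => SS b Zz F (J4 i) (NB b β (Zz (J4 i))) / ((J4 i : ℕ) : ℝ)) atTop
        (𝓝 0) := by
      rw [Metric.tendsto_nhds]
      intro ε hε
      obtain ⟨i', hi'⟩ := exists_nat_one_div_lt hε
      filter_upwards [hβ3 i' hβl hβr] with i hi
      have hJpos : (0 : ℝ) < J4 i := by rw [hJ4r]; positivity
      push Not at hi
      rw [Real.dist_eq, sub_zero, abs_div, abs_of_pos hJpos, div_lt_iff₀ hJpos]
      exact lt_of_le_of_lt hi (mul_lt_mul_of_pos_right hi' hJpos)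
    have h6 : Ces (fun j => F j (NB b β (Zz (j + 1)))) ((∏ s ∈ range k, μ s) * μ k) := by
      refine ces_quartic (fun j => ?_) ?_
      · rw [hFβ]
        exact Finset.prod_nonneg fun s _ => hZ0 _ _ _
      · have h7 := hSS0.add (Filter.Tendsto.comp hprod hJ4t)
        rw [zero_add] at h7
        refine h7.congr fun i => ?_
        simp only [Function.comp]
        rw [hS, Finset.sum_sub_distrib, sub_div, sub_add_cancel]
    rw [Finset.prod_range_succ]
    exact h6.congr hFβ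

end Run7.h854.CG
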