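import Mathlib
import Pool.Agent.Run7.h854.CO.FMax
import Pool.Agent.N176.GW.Stm
import Pool.Agent.N222.GW.CL

set_option autoImplicit false

/-!
# Binary cells and cells of a real base
-/

namespace Run7.h854.CG

open Finset Filter Topology MeasureTheory
open Pool.Agent.H305R2 (roughPart ff)
open Pool.Agent.N176.OW (VT)
open Pool.Agent.N176.GW (kr lv hits S_SM S_FM)
open Pool.Agent.N222.GW (cnt1 fib_card fib_mem int_near int_end ii_ff)
open Run7.h854.PO Run7.h854.PQ Run7.h854.CO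

/-- the integer of level `t` in base `α` of the binary integer `n` of level `L` -/
noncomputable def gi (α : ℝ) (L t n : ℕ) : ℕ := ⌊(n : ℝ) / (2 ^ L / α ^ t) + 0⌋₊

/-- the number of exponents in `T` -/
noncomputable def Zg (α : ℝ) (T : Finset ℕ) (L t n : ℕ) : ℝ :=
  ((hits α (fun _ => 0) T t (gi α L t n)).card : ℝ)

open Classical in
/-- the indicator of an exponent -/
noncomputable def Yg (α : ℝ) (q L t n : ℕ) : ℝ :=
  if (roughPart q (lv α (fun _ => 0) t q (gi α L t n))).Prime then 1 else 0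

lemma Zg_sum (α : ℝ) (T : Finset ℕ) (L t n : ℕ) : Zg α T L t n = ∑ q ∈ T, Yg α q L t n := by
  classical
  unfold Zg Yg hits
  rw [Finset.card_filter]
  push_cast
  refine Finset.sum_congr rfl fun q _ => ?_
  split_ifs <;> rfl

lemma Zg_nonneg (α : ℝ) (T : Finset ℕ) (L t n : ℕ) : 0 ≤ Zg α T L t n := Nat.cast_nonneg _

section
variable {α : ℝ} (hα1 : 1 < α) (hα2 : α ≤ 2) (hα3 : 2 ≤ α ^ 2)
include hα1 hα2 hα3

omit hα2 hα3 in
lemma pow_id {z t L : ℕ} (hzt : 2 * z ≤ t) (hzL : z ≤ L) :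
    (2 : ℝ) ^ (L - z) = (2 ^ L / α ^ t) * ((α ^ (2 * z) / 2 ^ z) * α ^ (t - 2 * z)) := by
  have hα0 : 0 < α := by linarith
  have e1 : (2 : ℝ) ^ L = 2 ^ (L - z) * 2 ^ z := by rw [← pow_add]; congr 1; omega
  have e2 : α ^ t = α ^ (2 * z) * α ^ (t - 2 * z) := by rw [← pow_add]; congr 1; omega
  rw [e1, e2]
  field_simp

open Classical in
/-- upper bound for sums over binary cells -/
lemma tr_up {z t L : ℕ} (hzt : 2 * z ≤ t) (htL : t ≤ L) {i : ℕ} (hi : 1 ≤ i) (f : ℕ → ℝ)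
    (hf : ∀ n, 0 ≤ f n) {E : ℝ} (hE0 : 0 ≤ E)
    (hE : ∀ j : ℕ, 1 ≤ j → (j : ℝ) ≤ (α ^ (2 * z) / 2 ^ z) * (i + 1) →
      ∑ n ∈ Pool.Agent.N176.GW.cell α (2 * z) t j, f n ≤ E) :
    ∑ n ∈ Ico (i * 2 ^ (L - z)) ((i + 1) * 2 ^ (L - z)), f (gi α L t n) ≤
      (2 * (2 ^ L / α ^ t)) * (3 * (α ^ (2 * z) / 2 ^ z) * E) := by
  have hα0 : 0 < α := by linarith
  have hpid := pow_id hα1 hzt (show z ≤ L by omega)
  obtain ⟨A, hA⟩ : ∃ A : ℝ, A = 2 ^ L / α ^ t := ⟨_, rfl⟩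
  have hA1 : 1 ≤ A := by
    rw [hA, one_le_div (by positivity)]
    calc α ^ t ≤ 2 ^ t := pow_le_pow_left₀ hα0.le hα2 t
      _ ≤ 2 ^ L := pow_le_pow_right₀ (by norm_num) htL
  have hA0 : 0 < A := by linarith
  obtain ⟨c, hc⟩ : ∃ c : ℝ, c = α ^ (2 * z) / 2 ^ z := ⟨_, rfl⟩
  have hc1 : 1 ≤ c := by
    rw [hc, one_le_div (by positivity), pow_mul]
    exact pow_le_pow_left₀ (by norm_num) hα3 z
  have hc0 : 0 < c := by linarith
  obtain ⟨B, hB⟩ : ∃ B : ℝ, B = α ^ (t - 2 * z) := ⟨_, rfl⟩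
  have hB1 : 1 ≤ B := by rw [hB]; exact one_le_pow₀ hα1.le
  have hB0 : 0 < B := by linarith
  have hgi : ∀ n, gi α L t n = ⌊(n : ℝ) / A + 0⌋₊ := fun n => by rw [hA]; rfl
  rw [← hA, ← hc, ← hB] at hpid
  rw [← hA, ← hc]
  rw [← hc] at hE
  have hi0 : (1 : ℝ) ≤ i := by exact_mod_cast hi
  set J := Ico ⌊(i : ℝ) * c⌋₊ ⌈((i : ℝ) + 1) * c⌉₊ with hJ
  have hJ1 : ∀ j ∈ J, 1 ≤ j ∧ (j : ℝ) ≤ c * (i + 1) := by
    intro j hj
    rw [hJ, mem_Ico, Nat.lt_ceil] at hj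
    refine ⟨le_trans (Nat.le_floor ?_) hj.1, ?_⟩
    · push_cast
      nlinarith
    · linarith [hj.2, mul_comm c ((i : ℝ) + 1)]
  have h1 : ∀ n ∈ Ico (i * 2 ^ (L - z)) ((i + 1) * 2 ^ (L - z)), f (gi α L t n) ≤
      ∑ j ∈ J, ∑ n' ∈ Pool.Agent.N176.GW.cell α (2 * z) t j,
        (if gi α L t n = n' then f n' else 0) := by
    intro n hn
    rw [mem_Ico] at hn
    have g1 : (i : ℝ) * (A * (c * B)) ≤ n := by
      rw [← hpid]
      exact_mod_cast hn.1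
    have g2 : (n : ℝ) < (i + 1) * (A * (c * B)) := by
      rw [← hpid]
      exact_mod_cast hn.2
    set y := (n : ℝ) / A / B with hy
    have hy0 : 0 ≤ y := by positivity
    have hyB : y * B = (n : ℝ) / A := by rw [hy]; field_simp
    have hy1 : (i : ℝ) * c ≤ y := by
      rw [hy, le_div_iff₀ hB0, le_div_iff₀ hA0]
      linarith
    have hy2 : y < (i + 1) * c := by
      rw [hy, div_lt_iff₀ hB0, div_lt_iff₀ hA0]
      linarith
    have g3 : (⌊y⌋₊ : ℝ) ≤ y := Nat.floor_le hy0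
    have g4 : y < ⌊y⌋₊ + 1 := Nat.lt_floor_add_one y
    have hm1 : ⌊y⌋₊ ∈ J := by
      rw [hJ, mem_Ico, Nat.lt_ceil]
      exact ⟨Nat.floor_le_floor hy1, by linarith⟩
    have hm2 : gi α L t n ∈ Pool.Agent.N176.GW.cell α (2 * z) t ⌊y⌋₊ := by
      unfold Pool.Agent.N176.GW.cell
      rw [mem_Ico, hgi, ← hB, Nat.lt_ceil]
      constructor
      · refine Nat.floor_le_floor ?_
        rw [add_zero, ← hyB]
        exact mul_le_mul_of_nonneg_right g3 hB0.le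
      · rw [add_zero]
        refine lt_of_le_of_lt (Nat.floor_le (by positivity)) ?_
        rw [← hyB]
        exact mul_lt_mul_of_pos_right g4 hB0
    have g5 : ∀ n', 0 ≤ (if gi α L t n = n' then f n' else 0) := by
      intro n'
      split_ifs
      · exact hf n'
      · exact le_rfl
    calc f (gi α L t n) = (if gi α L t n = gi α L t n then f (gi α L t n) else 0) := by
          rw [if_pos rfl]
      _ ≤ ∑ n' ∈ Pool.Agent.N176.GW.cell α (2 * z) t ⌊y⌋₊, (if gi α L t n = n' then f n' else 0) :=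
          Finset.single_le_sum (f := fun n' => if gi α L t n = n' then f n' else 0)
            (fun n' _ => g5 n') hm2
      _ ≤ _ := Finset.single_le_sum (f := fun j => ∑ n' ∈ Pool.Agent.N176.GW.cell α (2 * z) t j,
            (if gi α L t n = n' then f n' else 0)) (fun j _ => Finset.sum_nonneg fun n' _ => g5 n') hm1
  have h2 : ∀ j ∈ J, ∀ n' ∈ Pool.Agent.N176.GW.cell α (2 * z) t j,
      ∑ n ∈ Ico (i * 2 ^ (L - z)) ((i + 1) * 2 ^ (L - z)), (if gi α L t n = n' then f n' else 0) ≤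
        2 * A * f n' := by
    intro j hj n' hn'
    have hn1 : 1 ≤ n' := by
      unfold Pool.Agent.N176.GW.cell at hn'
      rw [mem_Ico, ← hB] at hn'
      refine le_trans (Nat.le_floor ?_) hn'.1
      have : (1 : ℝ) ≤ j := by exact_mod_cast (hJ1 j hj).1
      push_cast
      nlinarith
    rw [← Finset.sum_filter, Finset.sum_const, nsmul_eq_mul]
    refine mul_le_mul_of_nonneg_right ?_ (hf n')
    have h3 : (Ico (i * 2 ^ (L - z)) ((i + 1) * 2 ^ (L - z))).filter (fun n => gi α L t n = n') ⊆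
        Ico ⌈A * ((n' : ℝ) - 0)⌉₊ ⌈A * (n' + 1 - 0)⌉₊ := by
      intro n hn
      rw [mem_filter, hgi] at hn
      exact (fib_mem A 0 hA0 n' (by omega) n).1 hn.2
    have h4 : (((Ico (i * 2 ^ (L - z)) ((i + 1) * 2 ^ (L - z))).filter
        (fun n => gi α L t n = n')).card : ℝ) ≤
        ((Ico ⌈A * ((n' : ℝ) - 0)⌉₊ ⌈A * (n' + 1 - 0)⌉₊).card : ℝ) := by
      exact_mod_cast Finset.card_le_card h3
    have h5 := (abs_le.1 (fib_card A 0 hA0 n' (by simp))).2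
    linarith
  have hcard : (J.card : ℝ) ≤ 3 * c := by
    have h3 : ⌊(i : ℝ) * c⌋₊ ≤ ⌈((i : ℝ) + 1) * c⌉₊ :=
      (Nat.floor_le_ceil _).trans (Nat.ceil_le_ceil (by nlinarith))
    rw [hJ, Nat.card_Ico, Nat.cast_sub h3]
    have h4 := Nat.ceil_lt_add_one (show 0 ≤ ((i : ℝ) + 1) * c by positivity)
    have h5 := Nat.lt_floor_add_one ((i : ℝ) * c)
    nlinarith
  calc ∑ n ∈ Ico (i * 2 ^ (L - z)) ((i + 1) * 2 ^ (L - z)), f (gi α L t n)
      ≤ ∑ n ∈ Ico (i * 2 ^ (L - z)) ((i + 1) * 2 ^ (L - z)),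
        ∑ j ∈ J, ∑ n' ∈ Pool.Agent.N176.GW.cell α (2 * z) t j,
          (if gi α L t n = n' then f n' else 0) := Finset.sum_le_sum h1
    _ = ∑ j ∈ J, ∑ n' ∈ Pool.Agent.N176.GW.cell α (2 * z) t j,
        ∑ n ∈ Ico (i * 2 ^ (L - z)) ((i + 1) * 2 ^ (L - z)),
          (if gi α L t n = n' then f n' else 0) := by
        rw [Finset.sum_comm]
        exact Finset.sum_congr rfl fun j _ => Finset.sum_comm
    _ ≤ ∑ j ∈ J, ∑ n' ∈ Pool.Agent.N176.GW.cell α (2 * z) t j, 2 * A * f n' :=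
        Finset.sum_le_sum fun j hj => Finset.sum_le_sum fun n' hn' => h2 j hj n' hn'
    _ ≤ ∑ j ∈ J, 2 * A * E := by
        refine Finset.sum_le_sum fun j hj => ?_
        rw [← Finset.mul_sum]
        exact mul_le_mul_of_nonneg_left (hE j (hJ1 j hj).1 (hJ1 j hj).2) (by positivity)
    _ = J.card * (2 * A * E) := by rw [Finset.sum_const, nsmul_eq_mul]
    _ ≤ 3 * c * (2 * A * E) := mul_le_mul_of_nonneg_right hcard (by positivity)
    _ = _ := by ring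

theorem sec (hSM : S_SM α (fun _ => 0)) :
    ∃ D : ℝ, 0 < D ∧ ∃ P : ℕ, ∀ x ≥ P, ∀ T : Finset ℕ, (∀ p ∈ T, p.Prime ∧ x < p ∧ p ≤ 2 * x) →
    ∀ z : ℕ, 128 * z ≤ x → ∀ t : ℕ, 4 * x ≤ t → ∀ L : ℕ, t ≤ L → ∀ i : ℕ, 1 ≤ i →
    i + 1 ≤ 2 ^ (2 * z) → GG 2 z L (fun n => Zg α T L t n ^ 2) i ≤ D * VT T := by
  classical
  have hα0 : 0 < α := by linarith
  obtain ⟨D, hD, P, hP⟩ := hSM
  refine ⟨6 * D, by positivity, P, fun x hx T hT z hz t ht L htL i hi hi2 => ?_⟩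
  have hVT : 0 ≤ VT T := Pool.Agent.N176.OW.VT_nonneg T
  have hzt : 2 * z ≤ t := by omega
  have hzL : z ≤ L := by omega
  have h1 := tr_up hα1 hα2 hα3 hzt htL hi (fun n' => ((hits α (fun _ => 0) T t n').card : ℝ) ^ 2)
    (fun n' => sq_nonneg _) (E := D * VT T * α ^ (t - 2 * z)) (by positivity) (fun j hj1 hj2 => by
      refine hP x hx T hT (2 * z) (by omega) t ht j hj1 (hj2.trans ?_)
      have h3 : ((i : ℝ) + 1) ≤ 2 ^ (2 * z) := by exact_mod_cast hi2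
      have h4 : (2 : ℝ) ^ z ≤ α ^ (2 * z) := by
        rw [pow_mul]
        exact pow_le_pow_left₀ (by norm_num) hα3 z
      calc α ^ (2 * z) / 2 ^ z * ((i : ℝ) + 1) ≤ α ^ (2 * z) / 2 ^ z * 2 ^ (2 * z) :=
            mul_le_mul_of_nonneg_left h3 (by positivity)
        _ = α ^ (2 * z) * 2 ^ z := by
            rw [show (2 : ℝ) ^ (2 * z) = 2 ^ z * 2 ^ z by rw [← pow_add]; congr 1; omega]
            field_simp
        _ ≤ α ^ (2 * z) * α ^ (2 * z) := mul_le_mul_of_nonneg_left h4 (by positivity)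
        _ = _ := by rw [← pow_add]; congr 1; omega)
  have hpid := pow_id hα1 hzt hzL
  unfold GG Av
  push_cast
  have e1 : ∀ n, Zg α T L t n ^ 2 =
      (fun n' => ((hits α (fun _ => 0) T t n').card : ℝ) ^ 2) (gi α L t n) := fun n => rfl
  simp only [e1]
  rw [← mul_div_assoc, div_le_iff₀ (by positivity)]
  have e2 : (2 : ℝ) ^ L = 2 ^ z * 2 ^ (L - z) := by rw [← pow_add]; congr 1; omega
  calc (2 : ℝ) ^ z * ∑ n ∈ Ico (i * 2 ^ (L - z)) ((i + 1) * 2 ^ (L - z)),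
        (fun n' => ((hits α (fun _ => 0) T t n').card : ℝ) ^ 2) (gi α L t n)
      ≤ 2 ^ z * (2 * (2 ^ L / α ^ t) * (3 * (α ^ (2 * z) / 2 ^ z) * (D * VT T * α ^ (t - 2 * z)))) :=
        mul_le_mul_of_nonneg_left h1 (by positivity)
    _ = 6 * D * VT T * (2 ^ z * ((2 ^ L / α ^ t) * ((α ^ (2 * z) / 2 ^ z) * α ^ (t - 2 * z)))) := by ring
    _ = 6 * D * VT T * 2 ^ L := by rw [← hpid, e2]

end

end Run7.h854.CG
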