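import Mathlib
import Pool.Agent.Run7.h854.CG.Tr

set_option autoImplicit false

/-!
# The mean of an exponent over a binary cell
-/

namespace Run7.h854.CG

open Finset Filter Topology MeasureTheory
open Pool.Agent.H305R2 (roughPart ff)
open Pool.Agent.N176.OW (VT)
open Pool.Agent.N176.GW (kr lv hits S_SM S_FM)
open Pool.Agent.N222.GW (cnt1 fib_card fib_mem int_near int_end ii_ff)
open Run7.h854.PO Run7.h854.PQ Run7.h854.CO

/-- the integral that counts the exponents -/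
noncomputable def FI (q : ℕ) (x y : ℝ) : ℝ := ∫ u in (Real.log x)..(Real.log y), Real.exp u * ff q u

lemma FI_add (q : ℕ) (x y w : ℝ) : FI q x y + FI q y w = FI q x w :=
  intervalIntegral.integral_add_adjacent_intervals (ii_ff q _ _) (ii_ff q _ _)

lemma FI_end (q : ℕ) {x y : ℝ} (hx : 0 < x) (hxy : x ≤ y) : 0 ≤ FI q x y ∧ FI q x y ≤ y - x :=
  int_end q x y hx hxy

lemma FI_sum (q : ℕ) {B : ℝ} {j0 j1 : ℕ} (h : j0 ≤ j1) :
    ∑ j ∈ Ico j0 j1, FI q (j * B) (((j : ℝ) + 1) * B) = FI q (j0 * B) (j1 * B) := by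
  have h1 := intervalIntegral.sum_integral_adjacent_intervals_Ico (μ := volume)
    (f := fun u => Real.exp u * ff q u) (a := fun n : ℕ => Real.log ((n : ℝ) * B))
    (m := j0) (n := j1) h (fun k _ => ii_ff q _ _)
  unfold FI
  rw [← h1]
  refine Finset.sum_congr rfl fun j _ => ?_
  push_cast
  rfl

lemma ceil_floor {a c : ℝ} (ha : 0 ≤ a) (hac : a + 1 ≤ c) : ⌈a⌉₊ ≤ ⌊c⌋₊ := by
  refine Nat.le_floor ?_
  have := Nat.ceil_lt_add_one ha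
  linarith

/-- the sum over a slightly longer interval -/
lemma two_more {a c : ℝ} (ha : 0 ≤ a) (hac : a + 1 ≤ c) (Q : ℕ → ℝ) (hQ : ∀ n, 0 ≤ Q n ∧ Q n ≤ 1) :
    |∑ v ∈ Ico ⌈a⌉₊ ⌊c⌋₊, Q v - ∑ v ∈ Ico ⌊a⌋₊ ⌈c⌉₊, Q v| ≤ 2 := by
  have h1 := Finset.sum_Ico_consecutive Q (Nat.floor_le_ceil a) (ceil_floor ha hac)
  have h2 := Finset.sum_Ico_consecutive Q ((Nat.floor_le_ceil a).trans (ceil_floor ha hac))
    (Nat.floor_le_ceil c)
  have h3 : ∀ y : ℝ, 0 ≤ ∑ v ∈ Ico ⌊y⌋₊ ⌈y⌉₊, Q v ∧ ∑ v ∈ Ico ⌊y⌋₊ ⌈y⌉₊, Q v ≤ 1 := by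
    intro y
    refine ⟨Finset.sum_nonneg fun v _ => (hQ v).1, ?_⟩
    refine (Finset.sum_le_sum fun v _ => (hQ v).2).trans ?_
    rw [Finset.sum_const, Nat.card_Ico, nsmul_eq_mul, mul_one]
    have := Nat.ceil_le_floor_add_one y
    exact_mod_cast (by omega : ⌈y⌉₊ - ⌊y⌋₊ ≤ 1)
  obtain ⟨g1, g2⟩ := h3 a
  obtain ⟨g3, g4⟩ := h3 c
  rw [abs_le]
  constructor <;> linarith

section
variable {α : ℝ} (hα1 : 1 < α) (hα2 : α ≤ 2) (hα3 : 2 ≤ α ^ 2)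
include hα1 hα2 hα3

open Classical in
theorem mean1 {q z t L : ℕ} (h1 : 2 * z ≤ q) (h2 : 2 * q ≤ t) (h3 : 2 * t ≤ L) {i : ℕ}
    (hi : 1 ≤ i) :
    |GG 2 z L (fun n => Yg α q L t n) i -
      FI q (i * (α ^ q / 2 ^ z)) ((i + 1) * (α ^ q / 2 ^ z)) / (α ^ q / 2 ^ z)| ≤
      18 / (α ^ q / 2 ^ z) := by
  have hα0 : 0 < α := by linarith
  have hi0 : (1 : ℝ) ≤ i := by exact_mod_cast hi
  obtain ⟨A, hA⟩ : ∃ A : ℝ, A = 2 ^ L / α ^ t := ⟨_, rfl⟩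
  obtain ⟨A', hA'⟩ : ∃ A' : ℝ, A' = α ^ (t - q) := ⟨_, rfl⟩
  obtain ⟨C1, hC1⟩ : ∃ C1 : ℝ, C1 = α ^ q / 2 ^ z := ⟨_, rfl⟩
  obtain ⟨C2, hC2⟩ : ∃ C2 : ℝ, C2 = α ^ t / 2 ^ z := ⟨_, rfl⟩
  rw [← hC1]
  have hz2 : (2 : ℝ) ^ z ≤ α ^ (2 * z) := by
    rw [pow_mul]
    exact pow_le_pow_left₀ (by norm_num) hα3 z
  have hC11 : 1 ≤ C1 := by
    rw [hC1, one_le_div (by positivity)]
    exact hz2.trans (pow_le_pow_right₀ hα1.le h1)
  have hz1 : (1 : ℝ) ≤ 2 ^ z := one_le_pow₀ (by norm_num)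
  have hC1q : C1 ≤ α ^ q := by
    rw [hC1]
    exact div_le_self (by positivity) hz1
  have hA'C : C1 ≤ A' := by
    refine hC1q.trans ?_
    rw [hA']
    exact pow_le_pow_right₀ hα1.le (by omega)
  have hAC : C1 ≤ A := by
    refine hC1q.trans ?_
    rw [hA, le_div_iff₀ (by positivity)]
    calc α ^ q * α ^ t ≤ α ^ t * α ^ t :=
          mul_le_mul_of_nonneg_right (pow_le_pow_right₀ hα1.le (by omega)) (by positivity)
      _ = α ^ (2 * t) := by rw [← pow_add]; congr 1; omega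
      _ ≤ 2 ^ (2 * t) := pow_le_pow_left₀ hα0.le hα2 _
      _ ≤ 2 ^ L := pow_le_pow_right₀ (by norm_num) h3
  have hA'1 : 1 ≤ A' := hC11.trans hA'C
  have hA1 : 1 ≤ A := hC11.trans hAC
  have hC0 : 0 < C1 := by linarith
  have hC2e : C2 = A' * C1 := by
    rw [hC2, hA', hC1]
    have e : α ^ t = α ^ (t - q) * α ^ q := by rw [← pow_add]; congr 1; omega
    rw [e]
    ring
  have hC21 : 1 ≤ C2 := by rw [hC2e]; nlinarith
  have hLz : (2 : ℝ) ^ (L - z) = C2 * A := by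
    have e1 : (2 : ℝ) ^ L = 2 ^ (L - z) * 2 ^ z := by rw [← pow_add]; congr 1; omega
    rw [hC2, hA, e1]
    field_simp
  have hQdef : ∀ n, Yg α q L t n = if (roughPart q (lv α (fun _ => 0) t q (gi α L t n))).Prime
    then 1 else 0 := fun n => rfl
  set Q : ℕ → Prop := fun n' => (roughPart q (lv α (fun _ => 0) t q n')).Prime with hQ
  set Q2 : ℕ → Prop := fun v => (roughPart q v).Prime with hQ2
  have hQQ : ∀ n', Q n' ↔ Q2 ⌊(n' : ℝ) / A' + 0⌋₊ := by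
    intro n'
    rw [hA']
    exact Iff.rfl
  -- the first count
  have ha0 : 0 ≤ (i : ℝ) * C2 := by positivity
  have hac : (i : ℝ) * C2 + 1 ≤ (i + 1) * C2 := by linarith [add_mul (i : ℝ) 1 C2]
  have hca : ((i : ℝ) + 1) * C2 = i * C2 + C2 := by ring
  have hV0 : 1 ≤ ⌈(i : ℝ) * C2⌉₊ := Nat.one_le_ceil_iff.2 (by positivity)
  have c1 := cnt1 Q A ((i : ℝ) * C2) ((i + 1) * C2) 0 0 hA1 ha0 (by simp) ⌈(i : ℝ) * C2⌉₊
    ⌊((i : ℝ) + 1) * C2⌋₊ (by rw [add_zero]; exact Nat.le_ceil _)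
    (by rw [add_zero]; exact Nat.floor_le (by positivity)) hV0 (ceil_floor ha0 hac)
  have e1 : ⌊(i : ℝ) * C2 * A⌋₊ = i * 2 ^ (L - z) := by
    rw [mul_assoc, ← hLz]
    exact_mod_cast Nat.floor_natCast (i * 2 ^ (L - z))
  have e2 : ⌈((i : ℝ) + 1) * C2 * A⌉₊ = (i + 1) * 2 ^ (L - z) := by
    rw [mul_assoc, ← hLz]
    exact_mod_cast Nat.ceil_natCast ((i + 1) * 2 ^ (L - z))
  rw [e1, e2] at c1
  -- the second count
  have ha0' : 0 ≤ (i : ℝ) * C1 := by positivity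
  have hac' : (i : ℝ) * C1 + 1 ≤ (i + 1) * C1 := by linarith [add_mul (i : ℝ) 1 C1]
  have hca' : ((i : ℝ) + 1) * C1 = i * C1 + C1 := by ring
  have hV0' : 1 ≤ ⌈(i : ℝ) * C1⌉₊ := Nat.one_le_ceil_iff.2 (by positivity)
  have c2 := cnt1 Q2 A' ((i : ℝ) * C1) ((i + 1) * C1) 0 0 hA'1 ha0' (by simp) ⌈(i : ℝ) * C1⌉₊
    ⌊((i : ℝ) + 1) * C1⌋₊ (by rw [add_zero]; exact Nat.le_ceil _)
    (by rw [add_zero]; exact Nat.floor_le (by positivity)) hV0' (ceil_floor ha0' hac')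
  have e3 : (i : ℝ) * C1 * A' = i * C2 := by rw [hC2e]; ring
  have e4 : ((i : ℝ) + 1) * C1 * A' = (i + 1) * C2 := by rw [hC2e]; ring
  rw [e3, e4] at c2
  -- the third comparison
  have c3 := int_near q ⌈(i : ℝ) * C1⌉₊ ⌊((i : ℝ) + 1) * C1⌋₊ (i * C1) ((i + 1) * C1) (by positivity)
    hV0' (Nat.le_ceil _) (ceil_floor ha0' hac') (Nat.floor_le (by positivity))
  have c4 := two_more ha0 hac (fun v => if Q v then (1 : ℝ) else 0) (fun n => by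
    split_ifs <;> norm_num)
  -- names
  obtain ⟨X1, hX1⟩ : ∃ X1 : ℝ, X1 = ∑ v ∈ Ico ⌈(i : ℝ) * C2⌉₊ ⌊((i : ℝ) + 1) * C2⌋₊,
    (if Q v then (1 : ℝ) else 0) := ⟨_, rfl⟩
  obtain ⟨X2, hX2⟩ : ∃ X2 : ℝ, X2 = ∑ v ∈ Ico ⌊(i : ℝ) * C2⌋₊ ⌈((i : ℝ) + 1) * C2⌉₊,
    (if Q v then (1 : ℝ) else 0) := ⟨_, rfl⟩
  obtain ⟨X3, hX3⟩ : ∃ X3 : ℝ, X3 = ∑ v ∈ Ico ⌈(i : ℝ) * C1⌉₊ ⌊((i : ℝ) + 1) * C1⌋₊,
    (if Q2 v then (1 : ℝ) else 0) := ⟨_, rfl⟩
  obtain ⟨F, hF⟩ : ∃ F : ℝ, F = FI q (i * C1) ((i + 1) * C1) := ⟨_, rfl⟩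
  have hX2' : (((Ico ⌊(i : ℝ) * C2⌋₊ ⌈((i : ℝ) + 1) * C2⌉₊).filter
      (fun n : ℕ => Q2 ⌊(n : ℝ) / A' + 0⌋₊)).card : ℝ) = X2 := by
    rw [hX2, Finset.card_filter]
    push_cast
    refine Finset.sum_congr rfl fun v _ => ?_
    by_cases h : Q v
    · rw [if_pos h, if_pos ((hQQ v).1 h)]
    · rw [if_neg h, if_neg fun h' => h ((hQQ v).2 h')]
  obtain ⟨N, hN⟩ : ∃ N : ℝ, N = (((Ico (i * 2 ^ (L - z)) ((i + 1) * 2 ^ (L - z))).filter
      (fun n : ℕ => Q ⌊(n : ℝ) / A + 0⌋₊)).card : ℝ) := ⟨_, rfl⟩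
  rw [← hN, ← hX1] at c1
  rw [hX2', ← hX3] at c2
  rw [← hX1, ← hX2] at c4
  have c3' : |F - X3| ≤ 2 := by
    have g1 := Nat.ceil_lt_add_one ha0'
    have g2 := Nat.lt_floor_add_one (((i : ℝ) + 1) * C1)
    refine le_trans ?_ (show ((⌈(i : ℝ) * C1⌉₊ : ℝ) - i * C1) +
      ((i + 1) * C1 - ⌊((i : ℝ) + 1) * C1⌋₊) ≤ 2 by linarith)
    rw [hF, hX3]
    exact c3
  have c1' : |N - A * X1| ≤ C2 + 2 * A + 4 := by
    have g1 := Nat.ceil_lt_add_one ha0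
    have g2 := Nat.lt_floor_add_one (((i : ℝ) + 1) * C2)
    have g3 := Nat.le_ceil ((i : ℝ) * C2)
    have g4 := Nat.floor_le (show 0 ≤ ((i : ℝ) + 1) * C2 by positivity)
    refine c1.trans ?_
    have g5 : A * ((⌈(i : ℝ) * C2⌉₊ : ℝ) - i * C2 + 0) ≤ A * 1 :=
      mul_le_mul_of_nonneg_left (by linarith) (by linarith)
    have g6 : A * ((i + 1) * C2 - (⌊((i : ℝ) + 1) * C2⌋₊ : ℝ) + 0) ≤ A * 1 :=
      mul_le_mul_of_nonneg_left (by linarith) (by linarith)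
    linarith
  have c2' : |X2 - A' * X3| ≤ C1 + 2 * A' + 4 := by
    have g1 := Nat.ceil_lt_add_one ha0'
    have g2 := Nat.lt_floor_add_one (((i : ℝ) + 1) * C1)
    have g3 := Nat.le_ceil ((i : ℝ) * C1)
    have g4 := Nat.floor_le (show 0 ≤ ((i : ℝ) + 1) * C1 by positivity)
    refine c2.trans ?_
    have g5 : A' * ((⌈(i : ℝ) * C1⌉₊ : ℝ) - i * C1 + 0) ≤ A' * 1 :=
      mul_le_mul_of_nonneg_left (by linarith) (by linarith)
    have g6 : A' * ((i + 1) * C1 - (⌊((i : ℝ) + 1) * C1⌋₊ : ℝ) + 0) ≤ A' * 1 :=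
      mul_le_mul_of_nonneg_left (by linarith) (by linarith)
    linarith
  -- together
  have hmain : |N - A * A' * F| ≤ C2 + 2 * A + 4 + A * (2 + (C1 + 2 * A' + 4) + A' * 2) := by
    have e : N - A * A' * F = (N - A * X1) + A * ((X1 - X2) + (X2 - A' * X3) + A' * (X3 - F)) := by ring
    rw [e]
    refine (abs_add_le _ _).trans (add_le_add c1' ?_)
    rw [abs_mul, abs_of_pos (show 0 < A by linarith)]
    refine mul_le_mul_of_nonneg_left ?_ (by linarith)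
    refine (abs_add_le _ _).trans (add_le_add ((abs_add_le _ _).trans (add_le_add c4 c2')) ?_)
    rw [abs_mul, abs_of_pos (show 0 < A' by linarith), abs_sub_comm]
    exact mul_le_mul_of_nonneg_left c3' (by linarith)
  have hGG : GG 2 z L (fun n => Yg α q L t n) i = N / (A * A' * C1) := by
    unfold GG Av
    push_cast
    have e5 : ∑ n ∈ Ico (i * 2 ^ (L - z)) ((i + 1) * 2 ^ (L - z)), Yg α q L t n = N := by
      rw [hN, Finset.card_filter]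
      push_cast
      refine Finset.sum_congr rfl fun n _ => ?_
      rw [hQdef]
      unfold gi
      rw [← hA]
    rw [e5]
    have e6 : A * A' * C1 = 2 ^ L / 2 ^ z := by
      rw [mul_assoc, ← hC2e, hC2, hA]
      field_simp
    rw [e6]
    field_simp
  have hA0 : 0 < A := by linarith
  have hA'0 : 0 < A' := by linarith
  rw [hGG, ← hF]
  have e7 : N / (A * A' * C1) - F / C1 = (N - A * A' * F) / (A * A' * C1) := by field_simp
  rw [e7, abs_div, abs_of_pos (show 0 < A * A' * C1 by positivity), div_le_div_iff₀ (by positivity) hC0]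
  have h10 : C2 + 2 * A + 4 + A * (2 + (C1 + 2 * A' + 4) + A' * 2) ≤ 18 * (A * A') := by
    rw [hC2e]
    have k1 : A' * C1 ≤ A' * A := mul_le_mul_of_nonneg_left hAC hA'0.le
    have k2 : A * C1 ≤ A * A' := mul_le_mul_of_nonneg_left hA'C hA0.le
    have k3 : A * 1 ≤ A * A' := mul_le_mul_of_nonneg_left hA'1 hA0.le
    have k4 : 1 ≤ A * A' := by nlinarith
    nlinarith
  calc |N - A * A' * F| * C1 ≤ 18 * (A * A') * C1 :=
        mul_le_mul_of_nonneg_right (hmain.trans h10) hC0.le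
    _ = _ := by ring

end

end Run7.h854.CG
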