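import Mathlib
import Pool.Agent.Run7.h854.CG.Mn

set_option autoImplicit false

/-!
# The mean of an exponent over a binary cell: most cells are good
-/

namespace Run7.h854.CG

open Finset Filter Topology MeasureTheory
open Pool.Agent.H305R2 (roughPart ff log_nat_tendsto)
open Pool.Agent.N176.OW (VT)
open Pool.Agent.N176.GW (kr lv hits S_SM S_FM)
open Run7.h854.PO Run7.h854.PQ Run7.h854.CO

/-- the exceptional part of the deviation over the cell `j` of the base `α` -/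
noncomputable def rh (α K : ℝ) (q z' j : ℕ) : ℝ :=
  max 0 (|FI q (j * α ^ (q - z')) (((j : ℝ) + 1) * α ^ (q - z')) / α ^ (q - z') -
    kr α * (Real.log q / q)| - K / q)

lemma rh_nonneg (α K : ℝ) (q z' j : ℕ) : 0 ≤ rh α K q z' j := le_max_left _ _

/-- the exceptional part of the deviation over the binary cell `i` of level `z` -/
noncomputable def Rd (α K : ℝ) (q z i : ℕ) : ℝ :=
  (∑ j ∈ Ico ⌈(i : ℝ) * (α ^ (2 * z) / 2 ^ z)⌉₊ ⌊((i : ℝ) + 1) * (α ^ (2 * z) / 2 ^ z)⌋₊,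
    rh α K q (2 * z) j) / (α ^ (2 * z) / 2 ^ z)

section
variable {α : ℝ} (hα1 : 1 < α) (hα3 : 2 ≤ α ^ 2)
include hα1 hα3

lemma Rd_nonneg (K : ℝ) (q z i : ℕ) : 0 ≤ Rd α K q z i := by
  unfold Rd
  have hα0 : 0 < α := by linarith
  exact div_nonneg (Finset.sum_nonneg fun j _ => rh_nonneg α K q _ j) (by positivity)

lemma mean2 {K : ℝ} (hK : 0 ≤ K) {q z : ℕ} (h1 : 2 * z ≤ q) {i : ℕ} (hi : 1 ≤ i)
    (hμ0 : 0 ≤ kr α * (Real.log q / q)) (hμ1 : kr α * (Real.log q / q) ≤ 1) :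
    |FI q (i * (α ^ q / 2 ^ z)) ((i + 1) * (α ^ q / 2 ^ z)) / (α ^ q / 2 ^ z) -
      kr α * (Real.log q / q)| ≤ K / q + Rd α K q z i + 4 / (α ^ (2 * z) / 2 ^ z) := by
  have hα0 : 0 < α := by linarith
  have hi0 : (1 : ℝ) ≤ i := by exact_mod_cast hi
  obtain ⟨μ, hμ⟩ : ∃ μ : ℝ, μ = kr α * (Real.log q / q) := ⟨_, rfl⟩
  obtain ⟨B, hB⟩ : ∃ B : ℝ, B = α ^ (q - 2 * z) := ⟨_, rfl⟩
  obtain ⟨c0, hc0⟩ : ∃ c0 : ℝ, c0 = α ^ (2 * z) / 2 ^ z := ⟨_, rfl⟩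
  obtain ⟨C1, hC1⟩ : ∃ C1 : ℝ, C1 = α ^ q / 2 ^ z := ⟨_, rfl⟩
  have hRd : Rd α K q z i = (∑ j ∈ Ico ⌈(i : ℝ) * c0⌉₊ ⌊((i : ℝ) + 1) * c0⌋₊,
      rh α K q (2 * z) j) / c0 := by rw [hc0]; rfl
  have hrh : ∀ j, rh α K q (2 * z) j = max 0 (|FI q (j * B) (((j : ℝ) + 1) * B) / B - μ| - K / q) :=
    fun j => by rw [hB, hμ]; rfl
  rw [hRd, ← hμ, ← hc0, ← hC1]
  rw [← hμ] at hμ0 hμ1
  have hB1 : 1 ≤ B := by rw [hB]; exact one_le_pow₀ hα1.le
  have hB0 : 0 < B := by linarith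
  have hc01 : 1 ≤ c0 := by
    rw [hc0, one_le_div (by positivity), pow_mul]
    exact pow_le_pow_left₀ (by norm_num) hα3 z
  have hc00 : 0 < c0 := by linarith
  have hCe : C1 = c0 * B := by
    rw [hC1, hc0, hB]
    have e : α ^ q = α ^ (2 * z) * α ^ (q - 2 * z) := by rw [← pow_add]; congr 1; omega
    rw [e]
    ring
  have hC0 : 0 < C1 := by rw [hCe]; positivity
  have ha0 : 0 ≤ (i : ℝ) * c0 := by positivity
  have hac : (i : ℝ) * c0 + 1 ≤ (i + 1) * c0 := by linarith [add_mul (i : ℝ) 1 c0]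
  have hca : ((i : ℝ) + 1) * c0 = i * c0 + c0 := by ring
  obtain ⟨j0, hj0⟩ : ∃ j0 : ℕ, j0 = ⌈(i : ℝ) * c0⌉₊ := ⟨_, rfl⟩
  obtain ⟨j1, hj1⟩ : ∃ j1 : ℕ, j1 = ⌊((i : ℝ) + 1) * c0⌋₊ := ⟨_, rfl⟩
  rw [← hj0, ← hj1]
  have hjj : j0 ≤ j1 := by rw [hj0, hj1]; exact ceil_floor ha0 hac
  have g1 : (j0 : ℝ) < i * c0 + 1 := by rw [hj0]; exact Nat.ceil_lt_add_one ha0
  have g2 : (i : ℝ) * c0 ≤ j0 := by rw [hj0]; exact Nat.le_ceil _
  have g3 : (j1 : ℝ) ≤ (i + 1) * c0 := by rw [hj1]; exact Nat.floor_le (by positivity)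
  have g4 : ((i : ℝ) + 1) * c0 < j1 + 1 := by rw [hj1]; exact Nat.lt_floor_add_one _
  have hj0r : 0 < (j0 : ℝ) := lt_of_lt_of_le (by positivity) g2
  have hj1r : 0 < (j1 : ℝ) := lt_of_lt_of_le hj0r (by exact_mod_cast hjj)
  -- the three parts
  have e0 : FI q (i * C1) ((i + 1) * C1) = FI q (i * C1) (j0 * B) +
      ∑ j ∈ Ico j0 j1, FI q (j * B) (((j : ℝ) + 1) * B) + FI q (j1 * B) ((i + 1) * C1) := by
    rw [FI_sum q hjj, FI_add, FI_add]
  obtain ⟨p1, p2⟩ := FI_end q (show 0 < (i : ℝ) * C1 by positivity)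
    (show (i : ℝ) * C1 ≤ j0 * B by
      rw [hCe, ← mul_assoc]
      exact mul_le_mul_of_nonneg_right g2 hB0.le)
  obtain ⟨p3, p4⟩ := FI_end q (show 0 < (j1 : ℝ) * B by positivity)
    (show (j1 : ℝ) * B ≤ (i + 1) * C1 by
      rw [hCe, ← mul_assoc]
      exact mul_le_mul_of_nonneg_right g3 hB0.le)
  have p2' : FI q (i * C1) (j0 * B) ≤ B := by
    refine p2.trans ?_
    rw [hCe]
    nlinarith
  have p4' : FI q (j1 * B) ((i + 1) * C1) ≤ B := by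
    refine p4.trans ?_
    rw [hCe]
    nlinarith
  -- the main sum
  have hS : |∑ j ∈ Ico j0 j1, FI q (j * B) (((j : ℝ) + 1) * B) - μ * B * ((j1 : ℝ) - j0)| ≤
      B * c0 * (K / q) + B * ∑ j ∈ Ico j0 j1, rh α K q (2 * z) j := by
    have e1 : μ * B * ((j1 : ℝ) - j0) = ∑ _j ∈ Ico j0 j1, μ * B := by
      rw [Finset.sum_const, Nat.card_Ico, nsmul_eq_mul, Nat.cast_sub hjj]
      ring
    rw [e1, ← Finset.sum_sub_distrib]
    refine (Finset.abs_sum_le_sum_abs _ _).trans ?_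
    have h5 : ∀ j ∈ Ico j0 j1, |FI q (j * B) (((j : ℝ) + 1) * B) - μ * B| ≤
        B * (K / q) + B * rh α K q (2 * z) j := by
      intro j _
      have e2 : FI q (j * B) (((j : ℝ) + 1) * B) - μ * B =
          B * (FI q (j * B) (((j : ℝ) + 1) * B) / B - μ) := by field_simp
      rw [e2, abs_mul, abs_of_pos hB0, ← mul_add]
      refine mul_le_mul_of_nonneg_left ?_ hB0.le
      have h6 := le_max_right 0 (|FI q (j * B) (((j : ℝ) + 1) * B) / B - μ| - K / q)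
      rw [← hrh] at h6
      linarith
    refine (Finset.sum_le_sum h5).trans ?_
    rw [Finset.sum_add_distrib, Finset.sum_const, Nat.card_Ico, nsmul_eq_mul, Nat.cast_sub hjj,
      ← Finset.mul_sum]
    have h7 : ((j1 : ℝ) - j0) * (B * (K / q)) ≤ c0 * (B * (K / q)) :=
      mul_le_mul_of_nonneg_right (by linarith) (by positivity)
    linarith
  have hfin : |FI q (i * C1) ((i + 1) * C1) - μ * C1| ≤
      B * c0 * (K / q) + B * ∑ j ∈ Ico j0 j1, rh α K q (2 * z) j + 4 * B := by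
    have e3 : FI q (i * C1) ((i + 1) * C1) - μ * C1 =
        (∑ j ∈ Ico j0 j1, FI q (j * B) (((j : ℝ) + 1) * B) - μ * B * ((j1 : ℝ) - j0)) +
        (FI q (i * C1) (j0 * B) + FI q (j1 * B) ((i + 1) * C1) - μ * (B * (c0 - (j1 - j0)))) := by
      rw [e0, hCe]
      ring
    rw [e3]
    refine (abs_add_le _ _).trans (add_le_add hS ?_)
    have h8 : 0 ≤ B * (c0 - ((j1 : ℝ) - j0)) := mul_nonneg hB0.le (by linarith)
    have h9 : B * (c0 - ((j1 : ℝ) - j0)) ≤ B * 2 := mul_le_mul_of_nonneg_left (by linarith) hB0.le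
    have h10 : 0 ≤ μ * (B * (c0 - ((j1 : ℝ) - j0))) := mul_nonneg hμ0 h8
    have h11 : μ * (B * (c0 - ((j1 : ℝ) - j0))) ≤ 1 * (B * (c0 - ((j1 : ℝ) - j0))) :=
      mul_le_mul_of_nonneg_right hμ1 h8
    rw [abs_le]
    constructor <;> linarith
  have e4 : FI q (i * C1) ((i + 1) * C1) / C1 - μ = (FI q (i * C1) ((i + 1) * C1) - μ * C1) / C1 := by
    field_simp
  rw [e4, abs_div, abs_of_pos hC0, div_le_iff₀ hC0]
  refine hfin.trans (le_of_eq ?_)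
  rw [hCe]
  field_simp

/-- consecutive blocks -/
lemma blocks (f : ℕ → ℝ) (e : ℕ → ℕ) (he : Monotone e) {p r : ℕ} (hpr : p ≤ r) :
    ∑ i ∈ Ico p r, ∑ j ∈ Ico (e i) (e (i + 1)), f j = ∑ j ∈ Ico (e p) (e r), f j := by
  induction r, hpr using Nat.le_induction with
  | base => simp
  | succ r hpr ih =>
    rw [Finset.sum_Ico_succ_top hpr, ih]
    exact Finset.sum_Ico_consecutive f (he hpr) (he (Nat.le_succ r))

theorem mean3 (hFM : S_FM α) : ∃ κ0 K : ℝ, 0 < κ0 ∧ 0 < K ∧ ∀ m a1 a2 : ℕ, 1 ≤ a1 → a1 ≤ a2 →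
    ∃ P : ℕ, ∀ q ≥ P, ∀ z : ℕ, m + a2 ≤ z → (z : ℝ) ≤ κ0 * q →
      Av 2 m a1 a2 z (Rd α K q z) ≤ (Real.log q) ^ 2 / q ^ 2 := by
  have hα0 : 0 < α := by linarith
  obtain ⟨κ1, K, hκ1, hK, h⟩ := hFM
  refine ⟨κ1 / 2, K, by positivity, hK, fun m a1 a2 h1 h12 => ?_⟩
  obtain ⟨P, hP⟩ := h (2 * (m + a2))
  refine ⟨P, fun q hq z hmz hz => ?_⟩
  have h2 := hP q hq (2 * z) (by omega) (by push_cast; linarith)
  obtain ⟨c0, hc0⟩ : ∃ c0 : ℝ, c0 = α ^ (2 * z) / 2 ^ z := ⟨_, rfl⟩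
  have hc01 : 1 ≤ c0 := by
    rw [hc0, one_le_div (by positivity), pow_mul]
    exact pow_le_pow_left₀ (by norm_num) hα3 z
  have hc00 : 0 < c0 := by linarith
  have hRd : ∀ i, Rd α K q z i = (∑ j ∈ Ico ⌈(i : ℝ) * c0⌉₊ ⌊((i : ℝ) + 1) * c0⌋₊,
      rh α K q (2 * z) j) / c0 := fun i => by rw [hc0]; rfl
  set e : ℕ → ℕ := fun i => ⌈(i : ℝ) * c0⌉₊ with he
  have hemono : Monotone e := by
    intro x y hxy
    refine Nat.ceil_le_ceil (mul_le_mul_of_nonneg_right (by exact_mod_cast hxy) hc00.le)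
  have h3 : ∀ i, Rd α K q z i ≤ (∑ j ∈ Ico (e i) (e (i + 1)), rh α K q (2 * z) j) / c0 := by
    intro i
    rw [hRd]
    refine div_le_div_of_nonneg_right ?_ hc00.le
    refine Finset.sum_le_sum_of_subset_of_nonneg ?_ fun j _ _ => rh_nonneg α K q _ j
    refine Finset.Ico_subset_Ico le_rfl ?_
    simp only [he]
    push_cast
    exact Nat.floor_le_ceil _
  have hle : a1 * 2 ^ (z - m) ≤ a2 * 2 ^ (z - m) := Nat.mul_le_mul_right _ h12
  have h4 : ∑ i ∈ Ico (a1 * 2 ^ (z - m)) (a2 * 2 ^ (z - m)), Rd α K q z i ≤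
      (∑ j ∈ Ico ⌊α ^ (2 * z - 2 * (m + a2))⌋₊ ⌈α ^ (2 * z + 2 * (m + a2))⌉₊,
        rh α K q (2 * z) j) / c0 := by
    refine (Finset.sum_le_sum fun i _ => h3 i).trans ?_
    rw [← Finset.sum_div]
    refine div_le_div_of_nonneg_right ?_ hc00.le
    rw [blocks hα1 hα3 _ e hemono hle]
    refine Finset.sum_le_sum_of_subset_of_nonneg ?_ fun j _ _ => rh_nonneg α K q _ j
    have hpow : ∀ n : ℕ, (2 : ℝ) ^ n ≤ α ^ (2 * n) := fun n => by
      rw [pow_mul]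
      exact pow_le_pow_left₀ (by norm_num) hα3 n
    have hzm : (2 : ℝ) ^ z = 2 ^ (z - m) * 2 ^ m := by rw [← pow_add]; congr 1; omega
    have hc0e : (2 : ℝ) ^ (z - m) * c0 = α ^ (2 * z) / 2 ^ m := by
      rw [hc0, hzm]
      field_simp
    refine Finset.Ico_subset_Ico ?_ ?_
    · simp only [he]
      refine (Nat.floor_le_ceil _).trans (Nat.ceil_le_ceil ?_)
      push_cast
      rw [mul_assoc, hc0e]
      have h5 : α ^ (2 * z - 2 * (m + a2)) ≤ α ^ (2 * z) / 2 ^ m := by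
        rw [le_div_iff₀ (by positivity)]
        calc α ^ (2 * z - 2 * (m + a2)) * 2 ^ m ≤ α ^ (2 * z - 2 * (m + a2)) * α ^ (2 * m) :=
              mul_le_mul_of_nonneg_left (hpow m) (by positivity)
          _ = α ^ (2 * z - 2 * (m + a2) + 2 * m) := by rw [← pow_add]
          _ ≤ α ^ (2 * z) := pow_le_pow_right₀ hα1.le (by omega)
      have h6 : (1 : ℝ) ≤ a1 := by exact_mod_cast h1
      calc α ^ (2 * z - 2 * (m + a2)) ≤ 1 * (α ^ (2 * z) / 2 ^ m) := by rw [one_mul]; exact h5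
        _ ≤ a1 * (α ^ (2 * z) / 2 ^ m) := mul_le_mul_of_nonneg_right h6 (by positivity)
    · simp only [he]
      refine Nat.ceil_le_ceil ?_
      push_cast
      rw [mul_assoc, hc0e]
      have h5 : (a2 : ℝ) ≤ α ^ (2 * a2) := by
        have : a2 < 2 ^ a2 := Nat.lt_pow_self (by omega)
        have h6 : (a2 : ℝ) ≤ 2 ^ a2 := by exact_mod_cast this.le
        exact h6.trans (hpow a2)
      calc (a2 : ℝ) * (α ^ (2 * z) / 2 ^ m) ≤ α ^ (2 * a2) * α ^ (2 * z) := by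
            refine mul_le_mul h5 ?_ (by positivity) (by positivity)
            exact div_le_self (by positivity) (one_le_pow₀ (by norm_num))
        _ = α ^ (2 * a2 + 2 * z) := by rw [← pow_add]
        _ ≤ α ^ (2 * z + 2 * (m + a2)) := pow_le_pow_right₀ hα1.le (by omega)
  unfold Av
  push_cast
  rw [div_le_iff₀ (by positivity)]
  refine h4.trans ?_
  rw [div_le_iff₀ hc00]
  have h7 : ∑ j ∈ Ico ⌊α ^ (2 * z - 2 * (m + a2))⌋₊ ⌈α ^ (2 * z + 2 * (m + a2))⌉₊,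
      rh α K q (2 * z) j ≤ α ^ (2 * z) * ((Real.log q) ^ 2 / q ^ 2) := h2
  refine h7.trans (le_of_eq ?_)
  rw [hc0]
  field_simp

end

end Run7.h854.CG
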