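import Mathlib
import Pool.Agent.Run7.h854.CG.Fm
import Pool.Agent.Run7.h854.CG.Abs
import Pool.Agent.Run7.h854.CO.Grid
import Pool.Agent.N176.GW.Fin

set_option autoImplicit false

/-!
# Products of the numbers of exponents in distant windows, golden base
-/

namespace Run7.h854.CG

open Finset Filter Topology MeasureTheory
open Pool.Agent.H305R2 (roughPart ff log_nat_tendsto)
open Pool.Agent.N176.OW (VT)
open Pool.Agent.N176.GW (kr lv hits S_SM S_FM floor_ae)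
open Pool.Agent.N176.GP (NB NB_spec NB_div)
open Run7.h854.PO Run7.h854.PQ Run7.h854.CO

/-- the exponents of `β` in `T` -/
noncomputable def gdG (α β : ℝ) (T : Finset ℕ) : Finset ℕ :=
  T.filter (fun p => (roughPart p ⌊β * α ^ p + 0⌋₊).Prime)

/-- the integers are computed from the binary digits -/
theorem agr {α : ℝ} (hα1 : 1 < α) (hα2 : α ≤ 2) : ∀ᵐ β : ℝ, 0 < β → ∀ᶠ q : ℕ in atTop,
    ∀ t L : ℕ, 2 * q ≤ t → 2 * t ≤ L →
    lv α (fun _ => 0) t q (gi α L t (NB 2 β L)) = ⌊β * α ^ q + 0⌋₊ := by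
  have hα0 : 0 < α := by linarith
  filter_upwards [floor_ae hα1] with β hβ hβ0
  have hinv : |α⁻¹| < 1 := by
    rw [abs_of_pos (by positivity)]
    exact inv_lt_one_of_one_lt₀ hα1
  filter_upwards [hβ hβ0 α⁻¹ hinv (-2)] with q hq t L h1 h2
  obtain ⟨n1, n2⟩ := NB_spec (le_refl 2) hβ0 L
  push_cast at n1 n2
  set n := NB 2 β L with hn
  have hαt : 0 < α ^ t := by positivity
  have hα2L : α ^ t ≤ 2 ^ L := by
    calc α ^ t ≤ 2 ^ t := pow_le_pow_left₀ hα0.le hα2 t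
      _ ≤ 2 ^ L := pow_le_pow_right₀ (by norm_num) (by omega)
  have h2L : (0 : ℝ) < 2 ^ L := by positivity
  have y1 : (n : ℝ) / (2 ^ L / α ^ t) < β * α ^ t := by
    rw [div_lt_iff₀ (by positivity)]
    calc (n : ℝ) < β * 2 ^ L := n1
      _ = β * α ^ t * (2 ^ L / α ^ t) := by field_simp
  have y2 : β * α ^ t - 1 ≤ (n : ℝ) / (2 ^ L / α ^ t) := by
    rw [le_div_iff₀ (by positivity)]
    have e : (β * α ^ t - 1) * (2 ^ L / α ^ t) = β * 2 ^ L - 2 ^ L / α ^ t := by field_simp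
    rw [e]
    have : 1 ≤ (2 : ℝ) ^ L / α ^ t := by rw [one_le_div hαt]; exact hα2L
    linarith
  have hy0 : 0 ≤ (n : ℝ) / (2 ^ L / α ^ t) := by positivity
  set g := gi α L t n with hg
  have g1 : (g : ℝ) ≤ (n : ℝ) / (2 ^ L / α ^ t) := by
    rw [hg]
    unfold gi
    rw [add_zero]
    exact Nat.floor_le hy0
  have g2 : (n : ℝ) / (2 ^ L / α ^ t) < g + 1 := by
    rw [hg]
    unfold gi
    rw [add_zero]
    exact Nat.lt_floor_add_one _
  have hpw : α ^ t = α ^ q * α ^ (t - q) := by rw [← pow_add]; congr 1; omega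
  have hB0 : 0 < α ^ (t - q) := by positivity
  have hBq : α ^ q ≤ α ^ (t - q) := pow_le_pow_right₀ hα1.le (by omega)
  have k1 : (g : ℝ) / α ^ (t - q) ≤ β * α ^ q := by
    rw [div_le_iff₀ hB0, mul_assoc, ← hpw]
    linarith
  have k2 : β * α ^ q + -2 * α⁻¹ ^ q ≤ (g : ℝ) / α ^ (t - q) := by
    rw [le_div_iff₀ hB0]
    have e : (β * α ^ q + -2 * α⁻¹ ^ q) * α ^ (t - q) = β * α ^ t - 2 * (α⁻¹ ^ q * α ^ (t - q)) := by
      rw [hpw]; ring
    rw [e]
    have e2 : 1 ≤ α⁻¹ ^ q * α ^ (t - q) := by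
      rw [inv_pow, inv_mul_eq_div, one_le_div (by positivity)]
      exact hBq
    linarith
  unfold lv
  have l1 : ⌊(g : ℝ) / α ^ (t - q) + 0⌋₊ ≤ ⌊β * α ^ q + 0⌋₊ :=
    Nat.floor_le_floor (by linarith)
  have l2 : ⌊β * α ^ q + 0⌋₊ ≤ ⌊(g : ℝ) / α ^ (t - q) + 0⌋₊ := by
    rw [← hq]
    exact Nat.floor_le_floor (by linarith)
  exact le_antisymm l1 l2

lemma Zg_eq {α β : ℝ} {T : Finset ℕ} {L t : ℕ}
    (h : ∀ q ∈ T, lv α (fun _ => 0) t q (gi α L t (NB 2 β L)) = ⌊β * α ^ q + 0⌋₊) :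
    Zg α T L t (NB 2 β L) = ((gdG α β T).card : ℝ) := by
  classical
  unfold Zg hits gdG
  congr 2
  refine Finset.filter_congr fun q hq => ?_
  rw [h q hq]

/-- one exponent over a binary cell -/
theorem dev {α : ℝ} (hα1 : 1 < α) (hα2 : α ≤ 2) (hα4 : 5 / 2 ≤ α ^ 2) {K : ℝ} (hK : 0 ≤ K) :
    ∃ P : ℕ, ∀ q ≥ P, ∀ z : ℕ, 2 * z ≤ q → (q : ℝ) ≤ (5 / 4) ^ z → ∀ t L : ℕ, 2 * q ≤ t →
      2 * t ≤ L → ∀ i : ℕ, 1 ≤ i →
      |GG 2 z L (fun n => Yg α q L t n) i - kr α * (Real.log q / q)| ≤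
        (K + 22) / q + Rd α K q z i := by
  have hα3 : 2 ≤ α ^ 2 := by linarith
  have hα0 : 0 < α := by linarith
  have hkr : 0 ≤ kr α := by
    unfold kr
    exact div_nonneg (Real.exp_pos _).le (Real.log_nonneg hα1.le)
  have hlim : Tendsto (fun q : ℕ => kr α * (Real.log q / q)) atTop (𝓝 0) := by
    have h1 : Tendsto (fun x : ℝ => Real.log x / x) atTop (𝓝 0) := by
      simpa using Real.tendsto_pow_log_div_mul_add_atTop 1 0 1 one_ne_zero
    have h2 := (h1.comp tendsto_natCast_atTop_atTop).const_mul (kr α)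
    rw [mul_zero] at h2
    exact h2
  obtain ⟨P, hP⟩ := eventually_atTop.1 (hlim.eventually_le_const one_pos)
  refine ⟨max P 1, fun q hq z h1 hqz t L h2 h3 i hi => ?_⟩
  have hq1 : 1 ≤ q := (le_max_right _ _).trans hq
  have hq0 : (0 : ℝ) < q := by exact_mod_cast hq1
  have hμ1 := hP q ((le_max_left _ _).trans hq)
  have hμ0 : 0 ≤ kr α * (Real.log q / q) :=
    mul_nonneg hkr (div_nonneg (Real.log_natCast_nonneg q) hq0.le)
  have m1 := mean1 hα1 hα2 hα3 h1 h2 h3 hi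
  have m2 := mean2 hα1 hα3 hK h1 hi hμ0 hμ1
  have hc0 : (q : ℝ) ≤ α ^ (2 * z) / 2 ^ z := by
    refine hqz.trans ?_
    rw [pow_mul, ← div_pow]
    exact pow_le_pow_left₀ (by norm_num) (by linarith) z
  have hC1 : (q : ℝ) ≤ α ^ q / 2 ^ z := by
    refine hc0.trans ?_
    exact div_le_div_of_nonneg_right (pow_le_pow_right₀ hα1.le h1) (by positivity)
  have e1 : 18 / (α ^ q / 2 ^ z) ≤ 18 / q := div_le_div_of_nonneg_left (by norm_num) hq0 hC1
  have e2 : 4 / (α ^ (2 * z) / 2 ^ z) ≤ 4 / q := div_le_div_of_nonneg_left (by norm_num) hq0 hc0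
  have e3 : (K + 22) / (q : ℝ) = K / q + 18 / q + 4 / q := by ring
  rw [e3]
  refine (abs_sub_le _ _ _).trans ((add_le_add m1 m2).trans ?_)
  linarith

end Run7.h854.CG
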