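import Mathlib
import Pool.Agent.Run7.h854.CG.Gold

set_option autoImplicit false

/-!
# Products of the numbers of exponents in distant windows of a multiplicative grid, golden base
-/

namespace Run7.h854.CG

open Finset Filter Topology MeasureTheory
open Pool.Agent.H305R2 (roughPart ff log_nat_tendsto)
open Pool.Agent.N176.OW (VT)
open Pool.Agent.N176.GW (kr lv hits S_SM S_FM floor_ae)
open Pool.Agent.N176.GP (NB NB_spec NB_div)
open Run7.h854.PO Run7.h854.PQ Run7.h854.CO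

lemma NB_ge {m a1 z : ℕ} (hmz : m ≤ z) (h1 : 1 ≤ a1) {β : ℝ} (hβ : (a1 : ℝ) / ((2 : ℕ) : ℝ) ^ m < β) :
    1 ≤ NB 2 β z := by
  have hβ0 : 0 < β := lt_of_le_of_lt (by positivity) hβ
  obtain ⟨n1, n2⟩ := NB_spec (le_refl 2) hβ0 z
  push_cast at n1 n2 hβ
  rw [div_lt_iff₀ (by positivity)] at hβ
  have e : (2 : ℝ) ^ z = 2 ^ m * 2 ^ (z - m) := by rw [← pow_add]; congr 1; omega
  have h2 : (a1 : ℝ) * 2 ^ (z - m) < β * 2 ^ z := by
    rw [e, ← mul_assoc]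
    exact mul_lt_mul_of_pos_right hβ (by positivity)
  have h3 : ((a1 * 2 ^ (z - m) : ℕ) : ℝ) < (NB 2 β z : ℝ) + 1 := by
    push_cast
    linarith
  have h4 : a1 * 2 ^ (z - m) < NB 2 β z + 1 := by exact_mod_cast h3
  have h5 : 1 ≤ a1 * 2 ^ (z - m) := Nat.mul_pos h1 (by positivity)
  omega

/-- one interval of amplitudes -/
theorem chainG {α : ℝ} (hα1 : 1 < α) (hα2 : α ≤ 2) (hα4 : 5 / 2 ≤ α ^ 2)
    (hSM : S_SM α (fun _ => 0)) (hFM : S_FM α) : ∃ κ0 : ℝ, 0 < κ0 ∧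
    ∀ m a1 a2 : ℕ, 1 ≤ a1 → a1 ≤ a2 → ∃ P : ℕ,
    ∀ (z x : ℕ → ℕ → ℕ) (T : ℕ → ℕ → Finset ℕ),
    (∀ s, Monotone (z s)) → (∀ s j, m + a2 ≤ z s j) → (∀ s j, P ≤ x s j) →
    (∀ s j, 128 * z s j ≤ x s j) → (∀ s j, 8 * x s j ≤ z (s + 1) j) →
    (∀ s j, 8 * x s j ≤ z s (j + 1)) →
    (∀ s j, (2 * x s j : ℝ) ≤ (5 / 4) ^ z s j) →
    (∀ s j, ∀ p ∈ T s j, p.Prime ∧ x s j < p ∧ p ≤ 2 * x s j ∧ (z s j : ℝ) ≤ κ0 * p) →
    ∀ W : ℝ, (∀ s j, ∑ q ∈ T s j, Real.log q / (q : ℝ) ≤ W) →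
    (∀ s, Summable (fun j => ∑ q ∈ T s j, (Real.log q) ^ 2 / (q : ℝ) ^ 2)) →
    ∀ μ : ℕ → ℝ, (∀ s, Tendsto (fun j => kr α * ∑ q ∈ T s j, Real.log q / (q : ℝ)) atTop (𝓝 (μ s))) →
    (∀ s, Tendsto (fun j => ∑ q ∈ T s j, 1 / (q : ℝ)) atTop (𝓝 0)) →
    (∀ s, Tendsto (fun j => x s j) atTop atTop) →
    ∀ k : ℕ, ∀ᵐ β : ℝ, (a1 : ℝ) / ((2 : ℕ) : ℝ) ^ m < β → β ≤ (a2 : ℝ) / ((2 : ℕ) : ℝ) ^ m →
      Ces (fun j => ∏ s ∈ range k, ((gdG α β (T s j)).card : ℝ)) (∏ s ∈ range k, μ s) := by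
  classical
  have hα3 : 2 ≤ α ^ 2 := by linarith
  have hα0 : 0 < α := by linarith
  obtain ⟨κ0, K, hκ0, hK, hM⟩ := mean3 hα1 hα3 hFM
  obtain ⟨D0, hD0, P1, hP1⟩ := sec hα1 hα2 hα3 hSM
  obtain ⟨P2, hP2⟩ := dev hα1 hα2 hα4 hK.le
  refine ⟨κ0, hκ0, fun m a1 a2 h1 h12 => ?_⟩
  obtain ⟨P3, hP3⟩ := hM m a1 a2 h1 h12
  refine ⟨max P1 (max P2 P3), fun z x T hzm hz0 hPx hzx hxz hxz' hexp hT W hW hsum μ hμ hinv hxt => ?_⟩
  have hW0 : 0 ≤ W := (Finset.sum_nonneg fun q _ => lg_nonneg q).trans (hW 0 0)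
  have hPx1 : ∀ s j, P1 ≤ x s j := fun s j => (le_max_left _ _).trans (hPx s j)
  have hPx2 : ∀ s j, P2 ≤ x s j := fun s j =>
    ((le_max_left _ _).trans (le_max_right _ _)).trans (hPx s j)
  have hPx3 : ∀ s j, P3 ≤ x s j := fun s j =>
    ((le_max_right _ _).trans (le_max_right _ _)).trans (hPx s j)
  have hT3 : ∀ s j, ∀ p ∈ T s j, p.Prime ∧ x s j < p ∧ p ≤ 2 * x s j := fun s j p hp =>
    ⟨(hT s j p hp).1, (hT s j p hp).2.1, (hT s j p hp).2.2.1⟩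
  have hmz : ∀ s j, m ≤ z s j := fun s j => (Nat.le_add_right _ _).trans (hz0 s j)
  -- the conditional means
  have hdev : ∀ k : ℕ, ∀ᵐ β : ℝ, (a1 : ℝ) / ((2 : ℕ) : ℝ) ^ m < β → β ≤ (a2 : ℝ) / ((2 : ℕ) : ℝ) ^ m →
      Tendsto (fun j => GG 2 (z k j) (8 * x k j)
        (fun n => Zg α (T k j) (8 * x k j) (4 * x k j) n) (NB 2 β (z k j))) atTop (𝓝 (μ k)) := by
    intro k
    set R : ℕ → ℕ → ℝ := fun j i => ∑ q ∈ T k j, Rd α K q (z k j) i with hR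
    have hR0 : ∀ j i, 0 ≤ R j i := fun j i =>
      Finset.sum_nonneg fun q _ => Rd_nonneg hα1 hα3 K q (z k j) i
    have hRmean : ∀ j, Av 2 m a1 a2 (z k j) (R j) ≤ ∑ q ∈ T k j, (Real.log q) ^ 2 / (q : ℝ) ^ 2 := by
      intro j
      have e0 : Av 2 m a1 a2 (z k j) (R j) = ∑ q ∈ T k j, Av 2 m a1 a2 (z k j) (Rd α K q (z k j)) := by
        rw [hR]
        exact Av_sum _ _
      rw [e0]
      refine Finset.sum_le_sum fun q hq => ?_
      obtain ⟨g1, g2, g3, g4⟩ := hT k j q hq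
      exact hP3 q ((hPx3 k j).trans g2.le) (z k j) (hz0 k j) g4
    have hbad : ∀ ε : ℝ, 0 < ε → ∀ᵐ β : ℝ, (a1 : ℝ) / ((2 : ℕ) : ℝ) ^ m < β →
        β ≤ (a2 : ℝ) / ((2 : ℕ) : ℝ) ^ m → ∀ᶠ j in atTop, ¬ (ε < R j (NB 2 β (z k j))) := by
      intro ε hε
      refine bc' (g := fun j => (∑ q ∈ T k j, (Real.log q) ^ 2 / (q : ℝ) ^ 2) / ε) (le_refl 2)
        (t := fun j => z k j) (fun j => hmz k j) (fun j n => ε < R j n)
        ((hsum k).div_const ε) fun j => ?_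
      exact (mark (hR0 j) hε).trans (div_le_div_of_nonneg_right (hRmean j) hε.le)
    have hall : ∀ᵐ β : ℝ, ∀ i : ℕ, (a1 : ℝ) / ((2 : ℕ) : ℝ) ^ m < β →
        β ≤ (a2 : ℝ) / ((2 : ℕ) : ℝ) ^ m →
        ∀ᶠ j in atTop, ¬ (1 / ((i : ℝ) + 1) < R j (NB 2 β (z k j))) :=
      ae_all_iff.2 fun i => hbad _ (by positivity)
    filter_upwards [hall] with β hβ hβl hβr
    have hlim : Tendsto (fun j => GG 2 (z k j) (8 * x k j)
        (fun n => Zg α (T k j) (8 * x k j) (4 * x k j) n) (NB 2 β (z k j)) -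
        kr α * ∑ q ∈ T k j, Real.log q / (q : ℝ)) atTop (𝓝 0) := by
      rw [Metric.tendsto_nhds]
      intro ε hε
      obtain ⟨i, hi⟩ := exists_nat_one_div_lt (show 0 < ε / 2 by positivity)
      have h3 := (hinv k).const_mul (K + 22)
      rw [mul_zero] at h3
      filter_upwards [hβ i hβl hβr, h3.eventually_lt_const (show 0 < ε / 2 by positivity)] with j hj1 hj2
      push Not at hj1
      rw [Real.dist_eq, sub_zero]
      have hNB : 1 ≤ NB 2 β (z k j) := NB_ge (hmz k j) h1 hβl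
      have h4 : |GG 2 (z k j) (8 * x k j)
          (fun n => Zg α (T k j) (8 * x k j) (4 * x k j) n) (NB 2 β (z k j)) -
          kr α * ∑ q ∈ T k j, Real.log q / (q : ℝ)| ≤
          (K + 22) * ∑ q ∈ T k j, 1 / (q : ℝ) + R j (NB 2 β (z k j)) := by
        have e1 : GG 2 (z k j) (8 * x k j)
            (fun n => Zg α (T k j) (8 * x k j) (4 * x k j) n) (NB 2 β (z k j)) =
            ∑ q ∈ T k j, GG 2 (z k j) (8 * x k j)
              (fun n => Yg α q (8 * x k j) (4 * x k j) n) (NB 2 β (z k j)) := by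
          rw [← GG_sum]
          simp only [Zg_sum]
        rw [e1, Finset.mul_sum, ← Finset.sum_sub_distrib, hR]
        simp only
        rw [Finset.mul_sum, ← Finset.sum_add_distrib]
        refine (Finset.abs_sum_le_sum_abs _ _).trans (Finset.sum_le_sum fun q hq => ?_)
        obtain ⟨g1, g2, g3, g4⟩ := hT k j q hq
        have hzx' := hzx k j
        have h6 : (q : ℝ) ≤ (5 / 4) ^ z k j := by
          refine le_trans ?_ (hexp k j)
          exact_mod_cast g3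
        refine (hP2 q ((hPx2 k j).trans g2.le) (z k j) (by omega) h6 (4 * x k j) (8 * x k j)
          (by omega) (by omega) _ hNB).trans (le_of_eq ?_)
        ring
      linarith
    have h5 := hlim.add (hμ k)
    simp only [sub_add_cancel, zero_add] at h5
    exact h5
  -- the second moments
  have hsec : ∀ s j i, a1 * 2 ^ (z s j - m) ≤ i → i < a2 * 2 ^ (z s j - m) →
      GG 2 (z s j) (8 * x s j) (fun n => Zg α (T s j) (8 * x s j) (4 * x s j) n ^ 2) i ≤ D0 * W := by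
    intro s j i hi1 hi2
    have hi : 1 ≤ i := (Nat.mul_pos h1 (by positivity)).trans_le hi1
    have hi3 : i + 1 ≤ 2 ^ (2 * z s j) := by
      have h7 : a2 < 2 ^ a2 := Nat.lt_pow_self (by omega)
      have h8 : a2 * 2 ^ (z s j - m) ≤ 2 ^ a2 * 2 ^ (z s j - m) := Nat.mul_le_mul_right _ h7.le
      have h9 : 2 ^ a2 * 2 ^ (z s j - m) ≤ 2 ^ (2 * z s j) := by
        rw [← pow_add]
        have := hz0 s j
        exact Nat.pow_le_pow_right (by omega) (by omega)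
      omega
    have h4 := hP1 (x s j) (hPx1 s j) (T s j) (hT3 s j) (z s j) (hzx s j) (4 * x s j) le_rfl
      (8 * x s j) (by omega) i hi hi3
    refine h4.trans (mul_le_mul_of_nonneg_left ?_ hD0.le)
    exact hW s j
  have hzL : ∀ s j, z s j ≤ 8 * x s j := fun s j => by have := hzx s j; omega
  have hch := chain_abs (b := 2) (le_refl 2) (m := m) h12 z (fun s j => 8 * x s j)
    (fun s j n => Zg α (T s j) (8 * x s j) (4 * x s j) n) hzm (hmz 0 0) hzL hxz hxz'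
    (fun s j n => Zg_nonneg _ _ _ _ _) (Cm := D0 * W) (by positivity) hsec μ hdev
  intro k
  filter_upwards [hch k, agr hα1 hα2] with β hβ hβa hβl hβr
  have hβ0 : 0 < β := lt_of_le_of_lt (by positivity) hβl
  refine (hβ hβl hβr).congr' ?_
  obtain ⟨P4, hP4⟩ := eventually_atTop.1 (hβa hβ0)
  have hev : ∀ s ∈ range k, ∀ᶠ j in atTop, P4 ≤ x s j := fun s _ => (hxt s).eventually_ge_atTop P4
  filter_upwards [(Finset.eventually_all (range k)).2 hev] with j hj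
  refine Finset.prod_congr rfl fun s hs => ?_
  refine Zg_eq fun q hq => ?_
  obtain ⟨g1, g2, g3, g4⟩ := hT s j q hq
  exact hP4 q ((hj s hs).trans g2.le) _ _ (by omega) (by omega)

end Run7.h854.CG
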