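import Mathlib
import Pool.Agent.Run7.h854.CG.Grid

set_option autoImplicit false

/-!
# The multiplicative grid, golden base
-/

namespace Run7.h854.CG

open Finset Filter Topology MeasureTheory
open Pool.Agent.H305R2 (roughPart ff log_nat_tendsto)
open Pool.Agent.N176.OW (VT)
open Pool.Agent.N176.GW (kr lv hits S_SM S_FM floor_ae)
open Pool.Agent.N176.GP (NB NB_spec NB_div)
open Run7.h854.PO Run7.h854.PQ Run7.h854.CO

lemma pow_large (K1 : ℕ) : ∃ z1 : ℕ, ∀ z ≥ z1, 2 * (K1 : ℝ) * (z + 1) ≤ (5 / 4) ^ z := by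
  obtain ⟨P, hP⟩ := Pool.Agent.N222.GW.large (5 / 4) (4 * K1 + 1) (by norm_num) (by positivity)
  refine ⟨max P 1, fun z hz => ?_⟩
  have h1 := hP z ((le_max_left _ _).trans hz)
  have h2 : (1 : ℝ) ≤ z := by exact_mod_cast (le_max_right _ _).trans hz
  have h3 : (0 : ℝ) ≤ K1 := Nat.cast_nonneg K1
  refine le_trans ?_ h1
  have h4 : (z : ℝ) + 1 ≤ 2 * (z : ℝ) ^ 2 := by nlinarith
  nlinarith [mul_le_mul_of_nonneg_left h4 (show 0 ≤ 2 * (K1 : ℝ) by positivity), sq_nonneg (z : ℝ)]

theorem grid_gold {α : ℝ} (hα1 : 1 < α) (hα2 : α ≤ 2) (hα4 : 5 / 2 ≤ α ^ 2)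
    (hSM : S_SM α (fun _ => 0)) (hFM : S_FM α) : ∃ Kc : ℕ, 1 ≤ Kc ∧
    ∀ (S : ℕ → Set ℕ) (δ : ℕ → ℝ), (∀ i, ∀ p ∈ S i, p.Prime) →
    (∀ i, HasD (S i) (δ i)) → ∀ h : ℝ, 0 < h → h ≤ 1 / 2 → ∀ D : ℕ, 1 ≤ D →
    Real.log (2 * Kc) ≤ ((D : ℝ) - 1) * h → ∀ d : ℕ → ℕ, (∀ s, d s + D ≤ d (s + 1)) →
    ∀ k : ℕ, ∀ᵐ β : ℝ, 0 < β →
      Ces (fun j => ∏ s ∈ range k, ((gdG α β (Wd (S s) h (j + d s))).card : ℝ))
        (∏ s ∈ range k, kr α * (δ s * h)) := by
  classical
  obtain ⟨κ0, hκ0, hch⟩ := chainG hα1 hα2 hα4 hSM hFM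
  obtain ⟨K1, hK1⟩ := exists_nat_ge (256 + 1 / κ0)
  have hK256 : (256 : ℝ) ≤ K1 := by
    have : 0 < 1 / κ0 := by positivity
    linarith
  have hK1κ : 1 ≤ κ0 * K1 := by
    have h1 : 1 / κ0 ≤ K1 := by linarith
    rw [div_le_iff₀ hκ0] at h1
    linarith
  have hK0 : (0 : ℝ) < K1 := by linarith
  have hK11 : 1 ≤ K1 := by exact_mod_cast hK0
  obtain ⟨z1, hz1⟩ := pow_large K1
  refine ⟨8 * K1, by omega, fun S δ hSp hδ h hh hh2 D hD1 hD d hd k => ?_⟩
  have hdm : ∀ s, d s ≤ d (s + 1) := fun s => (Nat.le_add_right _ _).trans (hd s)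
  have hDr : (1 : ℝ) ≤ D := by exact_mod_cast hD1
  have hexp2 : Real.exp h ≤ 7 / 4 := by
    have h1 : Real.exp h ≤ Real.exp (1 / 2) := Real.exp_le_exp.2 hh2
    have h2 : Real.exp (1 / 2) ^ 2 = Real.exp 1 := by
      rw [← Real.exp_nat_mul]
      norm_num
    have h3 := Real.exp_one_lt_d9
    have h4 := Real.exp_pos (1 / 2)
    nlinarith
  -- one interval
  have hone : ∀ m a1 a2 : ℕ, 1 ≤ a1 → a1 ≤ a2 →
      ∀ᵐ β : ℝ, (a1 : ℝ) / ((2 : ℕ) : ℝ) ^ m < β → β ≤ (a2 : ℝ) / ((2 : ℕ) : ℝ) ^ m →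
      Ces (fun j => ∏ s ∈ range k, ((gdG α β (Wd (S s) h (j + d s))).card : ℝ))
        (∏ s ∈ range k, kr α * (δ s * h)) := by
    intro m a1 a2 h1 h12
    obtain ⟨P, hP⟩ := hch m a1 a2 h1 h12
    have hexp : Tendsto (fun n : ℕ => Real.exp (n * h)) atTop atTop :=
      Real.tendsto_exp_atTop.comp (tendsto_natCast_atTop_atTop.atTop_mul_const hh)
    obtain ⟨N0, ⟨hN1, hN2⟩, hN3, hN4⟩ := (((hexp.eventually_ge_atTop ((P : ℝ) + 1)).and
      (hexp.eventually_ge_atTop ((K1 : ℝ) * (m + a2)))).and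
      ((hexp.eventually_ge_atTop ((K1 : ℝ) * z1)).and (hexp.eventually_ge_atTop (8 : ℝ)))).exists
    have hres : ∀ r : ℕ, ∀ᵐ β : ℝ, (a1 : ℝ) / ((2 : ℕ) : ℝ) ^ m < β →
        β ≤ (a2 : ℝ) / ((2 : ℕ) : ℝ) ^ m →
        Ces (fun j => ∏ s ∈ range k, ((gdG α β (Wd (S s) h (r + D * j + N0 + d s))).card : ℝ))
          (∏ s ∈ range k, kr α * (δ s * h)) := by
      intro r
      set Gj : ℕ → ℕ → ℕ := fun s j => r + D * j + N0 + d s with hGj
      set z : ℕ → ℕ → ℕ := fun s j => ⌊Real.exp ((Gj s j : ℕ) * h) / K1⌋₊ with hz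
      set x : ℕ → ℕ → ℕ := fun s j => ⌊Real.exp ((Gj s j : ℕ) * h)⌋₊ with hx
      set T : ℕ → ℕ → Finset ℕ := fun s j => Wd (S s) h (Gj s j) with hT
      have hGN : ∀ s j, Real.exp (N0 * h) ≤ Real.exp ((Gj s j : ℕ) * h) := by
        intro s j
        apply Real.exp_le_exp.2
        refine mul_le_mul_of_nonneg_right ?_ hh.le
        exact_mod_cast (by simp only [hGj]; omega : N0 ≤ Gj s j)
      have hz3 : ∀ s j, ((z s j : ℕ) : ℝ) ≤ Real.exp ((Gj s j : ℕ) * h) / K1 := fun s j =>
        Nat.floor_le (by positivity)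
      have hz3' : ∀ s j, ((z s j : ℕ) : ℝ) * K1 ≤ Real.exp ((Gj s j : ℕ) * h) := fun s j => by
        rw [← le_div_iff₀ hK0]
        exact hz3 s j
      have hz4 : ∀ s j, Real.exp ((Gj s j : ℕ) * h) < ((z s j : ℕ) + 1) * K1 := fun s j => by
        rw [← div_lt_iff₀ hK0]
        exact Nat.lt_floor_add_one _
      have hx3 : ∀ s j, ((x s j : ℕ) : ℝ) ≤ Real.exp ((Gj s j : ℕ) * h) := fun s j =>
        Nat.floor_le (by positivity)
      have hx4 : ∀ s j, Real.exp ((Gj s j : ℕ) * h) < ((x s j : ℕ) : ℝ) + 1 := fun s j =>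
        Nat.lt_floor_add_one _
      have hxz : ∀ g g' : ℕ, g + D ≤ g' →
          8 * ⌊Real.exp ((g : ℕ) * h)⌋₊ ≤ ⌊Real.exp ((g' : ℕ) * h) / K1⌋₊ := by
        intro g g' hg
        refine Nat.le_floor ?_
        rw [le_div_iff₀ hK0]
        have hgr : (g : ℝ) + D ≤ g' := by exact_mod_cast hg
        have h3 : (g : ℝ) * h + Real.log (2 * (8 * K1 : ℕ)) ≤ g' * h := by nlinarith
        have h4 : Real.exp (g * h) * (2 * (8 * K1 : ℕ)) ≤ Real.exp (g' * h) := by
          calc Real.exp (g * h) * (2 * (8 * K1 : ℕ)) =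
              Real.exp (g * h) * Real.exp (Real.log (2 * (8 * K1 : ℕ))) := by
                rw [Real.exp_log (by push_cast; positivity)]
            _ = Real.exp (g * h + Real.log (2 * (8 * K1 : ℕ))) := (Real.exp_add _ _).symm
            _ ≤ _ := Real.exp_le_exp.2 h3
        have h5 : (⌊Real.exp ((g : ℕ) * h)⌋₊ : ℝ) ≤ Real.exp ((g : ℕ) * h) :=
          Nat.floor_le (by positivity)
        have h6 := Real.exp_pos ((g : ℝ) * h)
        push_cast at h4 ⊢
        nlinarith
      have hfin := hP z x T (fun s i j hij => ?_) (fun s j => ?_) (fun s j => ?_) (fun s j => ?_)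
        (fun s j => ?_) (fun s j => ?_) (fun s j => ?_) (fun s j p hp => ?_)
        (Real.log 4 * Real.exp h) (fun s j => ?_) (fun s => ?_) (fun s => kr α * (δ s * h))
        (fun s => ?_) (fun s => ?_) (fun s => ?_) k
      · exact hfin
      · -- monotone
        refine Nat.floor_le_floor (div_le_div_of_nonneg_right (Real.exp_le_exp.2 ?_) hK0.le)
        refine mul_le_mul_of_nonneg_right ?_ hh.le
        have := Nat.mul_le_mul_left D hij
        exact_mod_cast (by simp only [hGj]; omega : Gj s i ≤ Gj s j)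
      · -- m + a2 ≤ z
        refine Nat.le_floor ?_
        rw [le_div_iff₀ hK0]
        push_cast
        have := hGN s j
        linarith
      · -- P ≤ x
        refine Nat.le_floor ?_
        have := hGN s j
        linarith
      · -- 128 z ≤ x
        have h3 := hz3' s j
        have h4 := hx4 s j
        have h5 := hGN s j
        have h6 : ((z s j : ℕ) : ℝ) * 256 ≤ (z s j : ℕ) * K1 :=
          mul_le_mul_of_nonneg_left hK256 (Nat.cast_nonneg _)
        have h7 : ((128 * z s j : ℕ) : ℝ) ≤ ((x s j : ℕ) : ℝ) := by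
          push_cast
          linarith
        exact_mod_cast h7
      · exact hxz _ _ (by simp only [hGj]; have := hd s; omega)
      · refine hxz _ _ ?_
        simp only [hGj]
        have : D * (j + 1) = D * j + D := by ring
        omega
      · -- exponential
        have h3 : (z1 : ℝ) ≤ z s j := by
          have h4 : (z1 : ℕ) ≤ z s j := by
            refine Nat.le_floor ?_
            rw [le_div_iff₀ hK0]
            have := hGN s j
            linarith
          exact_mod_cast h4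
        have h5 := hz1 (z s j) (by exact_mod_cast h3)
        have h6 := hz4 s j
        have h7 := hx3 s j
        linarith
      · -- the primes
        have hp' : p ∈ Wd (S s) h (Gj s j) := hp
        rw [mem_Wd] at hp'
        obtain ⟨g1, g2, g3⟩ := hp'
        have h3 := hx3 s j
        have h4 := hx4 s j
        have h5 := hGN s j
        refine ⟨hSp s p g1, ?_, ?_, ?_⟩
        · have : ((x s j : ℕ) : ℝ) < p := lt_of_le_of_lt h3 g2
          exact_mod_cast this
        · have h6 : (p : ℝ) ≤ Real.exp ((Gj s j : ℕ) * h) * (7 / 4) := by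
            refine g3.trans ?_
            rw [Real.exp_add]
            exact mul_le_mul_of_nonneg_left hexp2 (Real.exp_pos _).le
          have h7 : (p : ℝ) ≤ ((2 * x s j : ℕ) : ℝ) := by
            push_cast
            linarith
          exact_mod_cast h7
        · have h6 : ((z s j : ℕ) : ℝ) * 1 ≤ (z s j : ℕ) * (κ0 * K1) :=
            mul_le_mul_of_nonneg_left hK1κ (Nat.cast_nonneg _)
          have h7 := hz3' s j
          have h8 : κ0 * ((z s j : ℝ) * K1) ≤ κ0 * p := mul_le_mul_of_nonneg_left (by linarith) hκ0.le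
          linarith
      · rw [hT]
        simp only
        rw [sum_Wd]
        exact gS_bound (hSp s) _ hh.le
      · refine summable_windows (fun i j hij => Wd_disj _ hh fun he => hij ?_) (fun q => by positivity)
          summable_lg2
        have h4 : D * i = D * j := by
          simp only [hGj] at he
          omega
        exact Nat.eq_of_mul_eq_mul_left (by omega) h4
      · rw [hT]
        simp only
        have h2 : Tendsto (fun j : ℕ => ((Gj s j : ℕ) : ℝ) * h) atTop atTop := by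
          refine Tendsto.atTop_mul_const hh (tendsto_natCast_atTop_atTop.comp ?_)
          refine tendsto_atTop_mono (fun j => ?_) tendsto_id
          have : j ≤ D * j := Nat.le_mul_of_pos_left j (by omega)
          simp only [id, hGj]
          omega
        refine (((gS_tendsto (hδ s) hh.le).comp h2).const_mul (kr α)).congr fun j => ?_
        simp only [Function.comp]
        rw [sum_Wd]
      · have h2 : Tendsto (fun j : ℕ => Real.log 4 * Real.exp h / h * (1 / (j : ℝ))) atTop
            (𝓝 (Real.log 4 * Real.exp h / h * 0)) :=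
          tendsto_one_div_atTop_nhds_zero_nat.const_mul _
        rw [mul_zero] at h2
        refine squeeze_zero' (Eventually.of_forall fun j => Finset.sum_nonneg fun q _ => by positivity)
          ?_ h2
        filter_upwards [eventually_ge_atTop 1] with j hj
        have hj0 : (0 : ℝ) < j := by exact_mod_cast hj
        have h3 : ∑ q ∈ T s j, 1 / (q : ℝ) ≤ ∑ q ∈ T s j, Real.log q / (q : ℝ) * (1 / (j * h)) := by
          refine Finset.sum_le_sum fun q hq => ?_
          rw [hT] at hq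
          simp only at hq
          rw [mem_Wd] at hq
          obtain ⟨g1, g2, g3⟩ := hq
          have hq0 : (0 : ℝ) < q := (Real.exp_pos _).trans g2
          have h4 : (j : ℝ) * h ≤ Real.log q := by
            rw [Real.le_log_iff_exp_le hq0]
            refine le_trans (Real.exp_le_exp.2 (mul_le_mul_of_nonneg_right ?_ hh.le)) g2.le
            have : j ≤ D * j := Nat.le_mul_of_pos_left j (by omega)
            exact_mod_cast (by simp only [hGj]; omega : j ≤ Gj s j)
          rw [mul_one_div, _root_.div_div, div_le_div_iff₀ hq0 (by positivity)]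
          nlinarith
        refine h3.trans ?_
        rw [← Finset.sum_mul]
        have h5 : ∑ q ∈ T s j, Real.log q / (q : ℝ) ≤ Real.log 4 * Real.exp h := by
          rw [hT]
          simp only
          rw [sum_Wd]
          exact gS_bound (hSp s) _ hh.le
        calc _ ≤ Real.log 4 * Real.exp h * (1 / (j * h)) :=
              mul_le_mul_of_nonneg_right h5 (by positivity)
          _ = _ := by field_simp
      · -- x tends to infinity
        have h2 : Tendsto (fun j : ℕ => Real.exp (((Gj s j : ℕ) : ℝ) * h)) atTop atTop := by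
          refine Real.tendsto_exp_atTop.comp ?_
          refine Tendsto.atTop_mul_const hh (tendsto_natCast_atTop_atTop.comp ?_)
          refine tendsto_atTop_mono (fun j => ?_) tendsto_id
          have : j ≤ D * j := Nat.le_mul_of_pos_left j (by omega)
          simp only [id, hGj]
          omega
        exact tendsto_nat_floor_atTop.comp h2
    filter_upwards [ae_all_iff.2 hres] with β hβ hβl hβr
    have h2 : Ces (fun j => (fun g : ℕ => ∏ s ∈ range k,
        ((gdG α β (Wd (S s) h (g + N0 + d s))).card : ℝ)) j) (∏ s ∈ range k, kr α * (δ s * h)) :=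
      ces_mod (fun j => Finset.prod_nonneg fun s _ => Nat.cast_nonneg _) hD1
        (fun r _ => hβ r hβl hβr)
    exact Ces.unshift N0 h2
  -- all amplitudes
  have hall : ∀ᵐ β : ℝ, ∀ M0 : ℕ, ((1 : ℕ) : ℝ) / ((2 : ℕ) : ℝ) ^ M0 < β →
      β ≤ ((2 ^ (2 * M0) : ℕ) : ℝ) / ((2 : ℕ) : ℝ) ^ M0 →
      Ces (fun j => ∏ s ∈ range k, ((gdG α β (Wd (S s) h (j + d s))).card : ℝ))
        (∏ s ∈ range k, kr α * (δ s * h)) :=
    ae_all_iff.2 fun M0 => hone M0 1 (2 ^ (2 * M0)) le_rfl (Nat.one_le_pow _ _ (by omega))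
  filter_upwards [hall] with β hβ hβ0
  have ht : Tendsto (fun M0 : ℕ => ((2 : ℕ) : ℝ) ^ M0) atTop atTop :=
    tendsto_pow_atTop_atTop_of_one_lt (by norm_num)
  obtain ⟨M0, h1, h2⟩ := ((ht.eventually_gt_atTop (1 / β)).and (ht.eventually_ge_atTop β)).exists
  refine hβ M0 ?_ ?_
  · rw [div_lt_iff₀ hβ0] at h1
    rw [div_lt_iff₀ (by positivity)]
    push_cast at h1 ⊢
    linarith
  · have e : ((2 ^ (2 * M0) : ℕ) : ℝ) / ((2 : ℕ) : ℝ) ^ M0 = ((2 : ℕ) : ℝ) ^ M0 := by
      push_cast
      rw [div_eq_iff (by positivity), ← pow_add]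
      congr 1
      omega
    rw [e]
    exact h2

end Run7.h854.CG
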