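import Mathlib
import Pool.Agent.Run7.h854.CG.Lim
import Pool.Agent.Run7.h854.CO.All
import Pool.Agent.N176.GW.All

set_option autoImplicit false

/-!
# The number of tuples of exponents with prescribed ratios, golden base, all members of the family
-/

namespace Run7.h854.CG

open Finset Filter Topology MeasureTheory
open Pool.Agent.H305R2 (roughPart)
open Pool.Agent.N176.GW (kr lv hits S_SM S_FM floor_ae)
open Run7.h854.PO Run7.h854.PQ Run7.h854.CO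

/-- the exponents of `β`, `B` in `S` -/
def ExB (α ψ : ℝ) (S : ℕ → Set ℕ) (β B : ℝ) (s : ℕ) : Set ℕ :=
  {p | p ∈ S s ∧ (roughPart p ⌊β * α ^ p + B * ψ ^ p⌋₊).Prime}

theorem cor_B {α : ℝ} (hα1 : 1 < α) (hα2 : α ≤ 2) (hα4 : 5 / 2 ≤ α ^ 2)
    (hSM : S_SM α (fun _ => 0)) (hFM : S_FM α) : ∃ C : ℝ, 1 ≤ C ∧
    ∀ (S : ℕ → Set ℕ) (δ : ℕ → ℝ), (∀ i, ∀ p ∈ S i, p.Prime) → (∀ i, HasD (S i) (δ i)) →
    ∀ᵐ β : ℝ, 0 < β → ∀ ψ : ℝ, |ψ| < 1 → ∀ (B : ℝ) (r : ℕ) (u v : Fin r → ℝ),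
    (∀ i, C ≤ u i ∧ u i ≤ v i) →
    Tendsto (fun n : ℕ => ((Qs (ExB α ψ S β B) u v n).ncard : ℝ) / Real.log n) atTop
      (𝓝 ((∏ s ∈ range (r + 1), kr α * δ s) * ∏ i, Real.log (v i / u i))) := by
  obtain ⟨C, hC1, hC⟩ := cor_gold hα1 hα2 hα4 hSM hFM
  refine ⟨C, hC1, fun S δ hSp hδ => ?_⟩
  filter_upwards [hC S δ hSp hδ, floor_ae hα1] with β hβ hfl hβ0 ψ hψ B r u v huv
  have hu1 : ∀ i, 1 ≤ u i ∧ u i ≤ v i := fun i => ⟨hC1.trans (huv i).1, (huv i).2⟩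
  obtain ⟨P0, hP0⟩ := eventually_atTop.1 (hfl hβ0 ψ hψ B)
  have hfin : ∀ n, (Qs (ExG α S β) u v n).Finite := by
    intro n
    classical
    exact (upper (G := fun s g => gdG α β (Wd (S s) 1 g)) one_pos
      (fun s p hp => (hSp s p hp.1).two_le) (fun s g p => mem_GG hSp s g p) hu1 1 n).1
  refine Qs_limit (P0 := P0) (fun i => (hu1 i).1) (fun s p hp => ?_) hfin (hβ hβ0 r u v huv)
  unfold ExB ExG
  rw [Set.mem_ofPred_eq, Set.mem_ofPred_eq, hP0 p hp]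

/-- the golden base -/
theorem cor_golden : ∃ C : ℝ, 1 ≤ C ∧
    ∀ (S : ℕ → Set ℕ) (δ : ℕ → ℝ), (∀ i, ∀ p ∈ S i, p.Prime) → (∀ i, HasD (S i) (δ i)) →
    ∀ᵐ β : ℝ, 0 < β → ∀ (B : ℝ) (r : ℕ) (u v : Fin r → ℝ),
    (∀ i, C ≤ u i ∧ u i ≤ v i) →
    Tendsto (fun n : ℕ => ((Qs (ExB Real.goldenRatio Real.goldenConj S β B) u v n).ncard : ℝ) /
      Real.log n) atTop
      (𝓝 ((∏ s ∈ range (r + 1), kr Real.goldenRatio * δ s) * ∏ i, Real.log (v i / u i))) := by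
  have h1 : Real.goldenRatio ≤ 2 := Real.goldenRatio_lt_two.le
  have h2 : 5 / 2 ≤ Real.goldenRatio ^ 2 := by
    have h3 : (3 : ℝ) / 2 ≤ Real.goldenRatio := by
      unfold Real.goldenRatio
      have h4 : (2 : ℝ) ≤ √5 := by
        rw [show (2 : ℝ) = √4 by rw [show (4 : ℝ) = 2 ^ 2 by norm_num]; exact (Real.sqrt_sq (by norm_num)).symm]
        exact Real.sqrt_le_sqrt (by norm_num)
      linarith
    rw [Real.goldenRatio_sq]
    linarith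
  have h5 : |Real.goldenConj| < 1 := by
    rw [abs_lt]
    exact ⟨Real.neg_one_lt_goldenConj, by have := Real.goldenConj_neg; linarith⟩
  obtain ⟨C, hC1, hC⟩ := cor_B Real.one_lt_goldenRatio h1 h2 Pool.Agent.N176.GW.All.sm
    Pool.Agent.N176.GW.All.fm
  refine ⟨C, hC1, fun S δ hSp hδ => ?_⟩
  filter_upwards [hC S δ hSp hδ] with β hβ hβ0 B r u v huv
  exact hβ hβ0 _ h5 B r u v huv

end Run7.h854.CG
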